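import Mathlib
import Pool.Agent.H906R3.YM.Final
import Pool.Agent.W504.YM.Fin
import Pool.Agent.W653.CF.NearG
import Pool.Agent.W653.SC.Tpl
import Pool.Agent.W653.SC.Tra
import Pool.Agent.W557.SC.Gard
import Pool.Agent.W646.SC.Eqv
import Pool.Agent.W646.SC.Ord
import Pool.Agent.W646.SC.Str
import Pool.Agent.W337.SC.Ball
import Pool.Agent.W337.SC.Pos
import Pool.Agent.W337.SC.Osc
import Pool.Agent.W64.SC.Haar
import Pool.Agent.W395.SC.Geo

/-!
# Lattice Yang-Mills theory in the Hamiltonian form: confinement or screening of static charges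

Space is the periodic cubic lattice `(ℤ/l)^D`, the gauge group `G` is a compact group with a faithful
representation `ι` into `U(N)` (the representation of the Wilson action), and the Hamiltonian is the one of Kogut and Susskind,
`H = - (g ^ 2 / 2) Δ + g ^ (-2) ∑_p Re tr (1 - U_p)` on functions on `G ^ links`. For a continuous
unitary representation `ρ` of `G` let `V(x, y)` be the potential of a static charge in the
representation `ρ` at `x` and its anticharge at `y`, and let `E₀` be the ground state energy.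

* For all `G`, `g`, `ρ` and all volumes: `E₀ ≤ V(x, y) ≤ E₀ + (g ^ 2 / 2) c |x - y|`, `c` the
  Casimir number of `ρ`.
* **Screening**, for all `G`, all couplings `g` and `D ≥ 2`: if `ρ` is trivial on the centre of `G`
  then `V(x, y) ≤ E₀ + C` with a constant `C` which does not depend on the volume and on `x`, `y`.
* **Confinement**: let `G` be connected with Ricci curvature at least `K > 0`, and let
  `g ^ 4 K ^ 2 > 128 (D - 1)`; put `σ = (g ^ 2 / 4) (K + (K ^ 2 - 128 (D - 1) / g ^ 4) ^ (1 / 2))`.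
  If `ρ` is irreducible and not trivial on the centre of `G` then `V(x, y) ≥ E₀ + σ |x - y|` in all
  volumes. More generally the energy of every state with arbitrary static charges is at least
  `E₀ + σ` times the number of the radii `r` such that the total central charge in the ball of
  radius `r` around a given site is not trivial, and the energy of every gauge invariant state with
  electric flux around the periodic lattice is at least `E₀ + σ l` times the number of the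
  directions of nontrivial flux.
* For `SU(N)` one has `K = N / 2`, and the condition `(g ^ 2 N) ^ 2 > 512 (D - 1)` is a condition on
  the coupling of 't Hooft.
-/

open MeasureTheory Matrix
open scoped ContDiff Matrix.Norms.Frobenius

namespace Pool.Agent.Results.MP_7f377f_mp.ConfinementScreening

set_option linter.unusedSectionVars false

noncomputable section

/-- Complex `N × N` matrices. -/
abbrev Mt (N : ℕ) := Matrix (Fin N) (Fin N) ℂ

/-- The unitary group `U(N)`. -/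
abbrev UU (N : ℕ) := Matrix.unitaryGroup (Fin N) ℂ

/-- The matrix of an element of the group in the representation `ι`. -/
def mt {N : ℕ} {G : Type} [Group G] (ι : G →* UU N) (h : G) : Mt N := (ι h : Mt N)

/-- Links of the periodic lattice `(ℤ/l)^D`: base point and direction. -/
abbrev Link (D l : ℕ) := (Fin D → ZMod l) × Fin D

/-- Unit vector of the lattice in direction `i`. -/
def unitv {D l : ℕ} (i : Fin D) : Fin D → ZMod l := Pi.single i 1

/-- The distance of two sites: the least number of links of a path which joins them. -/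
def dist1 {D l : ℕ} (x y : Fin D → ZMod l) : ℕ := ∑ i, (y i - x i).valMinAbs.natAbs

/-- An orthonormal basis `X` of the Lie algebra of `G`, that is of the real space of all matrices `Y`
with `exp (t Y) ∈ ι(G)` for all real `t`, with the scalar product `Re tr (Y* Z)`; `ex a t` is the
element of `G` with the matrix `exp (t X_a)`. -/
structure LieBasis {N : ℕ} {G : Type} [Group G] (ι : G →* UU N) (n : ℕ) where
  X : Fin n → Mt N
  ex : Fin n → ℝ → G
  ex_eq : ∀ a t, mt ι (ex a t) = NormedSpace.exp (t • X a)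
  orth : ∀ a b, (trace ((X a)ᴴ * X b)).re = if a = b then 1 else 0
  full : ∀ Y : Mt N, (∀ t : ℝ, ∃ h : G, mt ι h = NormedSpace.exp (t • Y)) →
    Y ∈ Submodule.span ℝ (Set.range X)

section

variable {N n D l : ℕ} {G : Type} [Group G] {ι : G →* UU N}

/-- The product of the link variables around the plaquette at `x` in the directions `i`, `j`. -/
def plaq (U : Link D l → G) (x : Fin D → ZMod l) (i j : Fin D) : G :=
  U (x, i) * U (x + unitv i, j) * (U (x + unitv j, i))⁻¹ * (U (x, j))⁻¹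

/-- The magnetic energy `∑_p Re tr (1 - U_p)`, the sum over the plaquettes. -/
def magnetic [NeZero l] (ι : G →* UU N) (U : Link D l → G) : ℝ :=
  ∑ x : Fin D → ZMod l, ∑ i : Fin D, ∑ j : Fin D,
    if i < j then (trace (1 - mt ι (plaq U x i j))).re else 0

/-- Smooth functions of the link variables: restrictions of smooth functions of the matrices. -/
def IsSmooth [NeZero l] (ι : G →* UU N) (F : (Link D l → G) → ℝ) : Prop :=
  ∃ f : (Link D l → Mt N) → ℝ, ContDiff ℝ ∞ f ∧ ∀ U, F U = f fun e => mt ι (U e)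

/-- The derivative of `F` at `U` when the variable of the link `e` moves as `exp (t X_a) U_e`. -/
def dlink (B : LieBasis ι n) (e : Link D l) (a : Fin n) (F : (Link D l → G) → ℝ)
    (U : Link D l → G) : ℝ :=
  deriv (fun t => F (Function.update U e (B.ex a t * U e))) 0

/-- The energy `⟨F, H F⟩` of a smooth function `F`, as a quadratic form, `μ` being the Haar measure:
`(g ^ 2 / 2) ∑_{e, a} ∫ (D_{e, a} F) ^ 2 + g ^ (-2) ∫ (∑_p Re tr (1 - U_p)) F ^ 2`. -/
def energy [NeZero l] [MeasurableSpace G] (B : LieBasis ι n) (μ : Measure G) (g : ℝ)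
    (F : (Link D l → G) → ℝ) : ℝ :=
  g ^ 2 / 2 * (∑ e : Link D l, ∑ a : Fin n,
    ∫ U, (dlink B e a F U) ^ 2 ∂(Measure.pi fun _ : Link D l => μ)) +
  1 / g ^ 2 * ∫ U, magnetic ι U * F U ^ 2 ∂(Measure.pi fun _ : Link D l => μ)

/-- Gauge transformation of the link variables. -/
def gauge (γ : (Fin D → ZMod l) → G) (U : Link D l → G) : Link D l → G :=
  fun e => γ e.1 * U e * (γ (e.1 + unitv e.2))⁻¹

/-- Gauge invariant functions. -/
def GaugeInv (F : (Link D l → G) → ℝ) : Prop := ∀ γ U, F (gauge γ U) = F U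

/-- A state: a smooth gauge invariant function of the link variables with `∫ Ψ ^ 2 = 1`. -/
structure IsState [NeZero l] [MeasurableSpace G] (ι : G →* UU N) (μ : Measure G)
    (Ψ : (Link D l → G) → ℝ) : Prop where
  smooth : IsSmooth ι Ψ
  inv : GaugeInv Ψ
  norm : ∫ U, Ψ U ^ 2 ∂(Measure.pi fun _ : Link D l => μ) = 1

/-- The ground state energy: the infimum of the energies of the states. -/
def groundEnergy (D l : ℕ) [NeZero l] [MeasurableSpace G] (B : LieBasis ι n) (μ : Measure G)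
    (g : ℝ) : ℝ :=
  sInf {E : ℝ | ∃ Ψ : (Link D l → G) → ℝ, IsState ι μ Ψ ∧ energy B μ g Ψ = E}

/-- A wave function: a smooth function of the link variables with values in `ℂ ^ κ` and with
`∫ |Ψ| ^ 2 = 1`. -/
structure IsWave [NeZero l] [MeasurableSpace G] {κ : Type} [Fintype κ] (ι : G →* UU N)
    (μ : Measure G) (Ψ : (Link D l → G) → κ → ℂ) : Prop where
  re : ∀ k, IsSmooth ι fun U => (Ψ U k).re
  im : ∀ k, IsSmooth ι fun U => (Ψ U k).im
  norm : ∫ U, ∑ k, ‖Ψ U k‖ ^ 2 ∂(Measure.pi fun _ : Link D l => μ) = 1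

/-- The energy `⟨Ψ, H Ψ⟩` of a wave function with values in `ℂ ^ κ`. -/
def energyV [NeZero l] [MeasurableSpace G] {κ : Type} [Fintype κ] (B : LieBasis ι n)
    (μ : Measure G) (g : ℝ) (Ψ : (Link D l → G) → κ → ℂ) : ℝ :=
  ∑ k, (energy B μ g (fun U => (Ψ U k).re) + energy B μ g (fun U => (Ψ U k).im))

/-- The entries of a function with values in the matrices. -/
def ent {M : ℕ} (Ψ : (Link D l → G) → Mt M) : (Link D l → G) → Fin M × Fin M → ℂ :=
  fun U p => Ψ U p.1 p.2

/-- The states with a static charge in the representation `ρ` at `x` and its anticharge at `y`: the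
wave functions with values in the matrices which satisfy the law of Gauss,
`Ψ (U ^ γ) = ρ(γ(x)) Ψ(U) ρ(γ(y))⁻¹`. -/
structure IsPair [NeZero l] [MeasurableSpace G] {M : ℕ} (ι : G →* UU N) (μ : Measure G)
    (ρ : G →* UU M) (x y : Fin D → ZMod l) (Ψ : (Link D l → G) → Mt M) : Prop where
  wave : IsWave ι μ (ent Ψ)
  gauss : ∀ γ U, Ψ (gauge γ U) = (ρ (γ x) : Mt M) * Ψ U * ((ρ (γ y))⁻¹ : UU M)

/-- The energies of the states with static charges `ρ` at `x` and its dual at `y`. -/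
def pairEnergies [NeZero l] [MeasurableSpace G] {M : ℕ} (B : LieBasis ι n) (μ : Measure G)
    (g : ℝ) (ρ : G →* UU M) (x y : Fin D → ZMod l) : Set ℝ :=
  {E : ℝ | ∃ Ψ : (Link D l → G) → Mt M, IsPair ι μ ρ x y Ψ ∧ energyV B μ g (ent Ψ) = E}

/-- The potential of a static charge `ρ` at `x` and its anticharge at `y`. -/
def potential [NeZero l] [MeasurableSpace G] {M : ℕ} (B : LieBasis ι n) (μ : Measure G)
    (g : ℝ) (ρ : G →* UU M) (x y : Fin D → ZMod l) : ℝ := sInf (pairEnergies B μ g ρ x y)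

/-- The Casimir number of a representation of dimension `M`: `- (1 / M) ∑_a tr dρ(X_a) ^ 2`, where
`dρ(X_a)` is the derivative of `ρ (exp (t X_a))` at `t = 0`, a skew-Hermitian matrix. -/
def casimir {M : ℕ} (B : LieBasis ι n) (ρ : G →* UU M) : ℝ :=
  (∑ a, ∑ i, ∑ j, ‖deriv (fun t : ℝ => (ρ (B.ex a t) : Mt M) i j) 0‖ ^ 2) / M

/-- Irreducible representations: all invariant subspaces are trivial. -/
def IsIrred {M : ℕ} (ρ : G →* UU M) : Prop :=
  ∀ W : Submodule ℂ (Fin M → ℂ), (∀ h, ∀ v ∈ W, (ρ h : Mt M).mulVec v ∈ W) → W = ⊥ ∨ W = ⊤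

/-- `K` is a lower bound of the Ricci curvature of the bi-invariant metric of `G` given by
`Re tr (Y* Z)`: as `Ric (Y, Y) = (1 / 4) ∑_a ‖[X_a, Y]‖ ^ 2`, this is
`4 K ‖Y‖ ^ 2 ≤ ∑_a ‖[X_a, Y]‖ ^ 2` for all `Y` in the Lie algebra, with `‖Z‖ ^ 2 = Re tr (Z* Z)`. -/
def Curved (B : LieBasis ι n) (K : ℝ) : Prop :=
  ∀ Y ∈ Submodule.span ℝ (Set.range B.X), 4 * K * (trace (Yᴴ * Y)).re ≤
    ∑ a, (trace ((B.X a * Y - Y * B.X a)ᴴ * (B.X a * Y - Y * B.X a))).re

/-- The static charges of the wave function at the sites `s` have the central characters `χ s`: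
under a gauge transformation `γ` with values in the centre of `G` the wave function is multiplied by
`∏ s, χ s (γ s)`. -/
def HasCharge [NeZero l] {κ : Type} (χ : (Fin D → ZMod l) → Subgroup.center G →* ℂ)
    (Ψ : (Link D l → G) → κ → ℂ) : Prop :=
  ∀ (γ : (Fin D → ZMod l) → Subgroup.center G) (U : Link D l → G) (k : κ),
    Ψ (gauge (fun s => (γ s : G)) U) k = (∏ s, χ s (γ s)) * Ψ U k

/-- Multiplication by `z` of the variables of the links in direction `i` which start on the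
hyperplane `s i = 0`. -/
def twist (i : Fin D) (z : G) (U : Link D l → G) : Link D l → G :=
  fun e => if e.2 = i ∧ e.1 i = 0 then z * U e else U e

/-- The gauge invariant functions of electric flux `χ i` in the directions `i`, the `χ i` being
characters of the centre of `G`. -/
structure HasFlux {κ : Type} (χ : Fin D → Subgroup.center G →* ℂ)
    (Ψ : (Link D l → G) → κ → ℂ) : Prop where
  inv : ∀ γ U, Ψ (gauge γ U) = Ψ U
  flux : ∀ (i : Fin D) (z : Subgroup.center G) U m, Ψ (twist i (z : G) U) m = χ i z * Ψ U m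

end

/-- The lower bound of the string tension,
`(g ^ 2 / 4) (K + (K ^ 2 - 128 (D - 1) / g ^ 4) ^ (1 / 2))`; it is at least `g ^ 2 K / 4`. -/
def tension (K : ℝ) (D : ℕ) (g : ℝ) : ℝ :=
  g ^ 2 / 4 * (K + Real.sqrt (K ^ 2 - 128 * ((D : ℝ) - 1) / g ^ 4))

open Pool.Agent.H906R3 Pool.Agent.W653.CF

section proofs

variable {N n D l : ℕ} {G : Type} [Group G] {ι : G →* UU N} [TopologicalSpace G]
  [hF : Fact (Continuous ι ∧ Function.Injective ι)]

/-- The same data in the form used by the helper files. -/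
def fm (B : LieBasis ι n) : Pool.Agent.W653.SC.Fr ι n where
  X := B.X
  ex := B.ex
  ex_eq := B.ex_eq
  orth := B.orth
  full := B.full

/-- The abstract data. -/
def ld (B : LieBasis ι n) : YM.LD G N n := (fm B).ld hF.out.1 hF.out.2

lemma shift_eq (B : LieBasis ι n) (e : Link D l) (a : Fin n) (t : ℝ) (U : Link D l → G) :
    (ld B).shift e a t U = Function.update U e (B.ex a t * U e) := by
  funext e'
  unfold YM.LD.shift
  by_cases h : e' = e
  · subst h
    rw [Pi.mul_apply, Pi.mulSingle_eq_same, Function.update_self]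
    rfl
  · rw [Pi.mul_apply, Pi.mulSingle_eq_of_ne h, one_mul, Function.update_of_ne h]

lemma dlink_eq [NeZero l] (B : LieBasis ι n) (e : Link D l) (a : Fin n)
    (F : YM.Sm (ld B) (Link D l)) (U : Link D l → G) :
    dlink B e a F.1 U = ((ld B).Dv (e, a) F).1 U := by
  rw [YM.Dv_apply]
  unfold dlink YM.LD.dF
  simp only [shift_eq]

lemma magnetic_eq [NeZero l] (B : LieBasis ι n) (U : Link D l → G) :
    magnetic ι U = (YM.VT (ld B) D l).1 U := by
  have h1 := YM.VT_apply (L := ld B) U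
  have h2 : (YM.VT (ld B) D l).1 U = (ld B).ev U (YM.VT (ld B) D l) := rfl
  rw [h2, h1]
  have h3 : ∑ p : YM.Pl D l, YM.we (ld B) (YM.plqT U p.1.1 p.1.2.1 p.1.2.2) =
      ∑ p ∈ (Finset.univ.filter fun p : (Fin D → ZMod l) × Fin D × Fin D => p.2.1 < p.2.2),
        YM.we (ld B) (YM.plqT U p.1 p.2.1 p.2.2) := by
    rw [Finset.sum_subtype (p := fun p : (Fin D → ZMod l) × Fin D × Fin D => p.2.1 < p.2.2)]
    intro p; simp
  rw [h3, Finset.sum_filter, Fintype.sum_prod_type]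
  unfold magnetic
  refine Finset.sum_congr rfl fun x _ => ?_
  rw [Fintype.sum_prod_type]
  rfl

lemma inv_iff [NeZero l] (B : LieBasis ι n) (u : YM.Sm (ld B) (Link D l)) :
    YM.Inv u ↔ GaugeInv u.1 := by
  constructor
  · intro h γ U
    exact congrArg (fun v : YM.Sm (ld B) (Link D l) => v.1 U) (h γ)
  · intro h γ
    exact YM.ev_ext fun U => h γ U

/-- A Haar probability measure is invariant under right multiplications. -/
lemma right_inv {H : Type*} [Group H] [TopologicalSpace H] [IsTopologicalGroup H]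
    [CompactSpace H] [MeasurableSpace H] [BorelSpace H] (μ : Measure H)
    [IsProbabilityMeasure μ] [μ.IsHaarMeasure] : μ.IsMulRightInvariant := by
  refine ⟨fun g => ?_⟩
  have h1 : IsProbabilityMeasure (Measure.map (fun x => x * g) μ) :=
    Measure.isProbabilityMeasure_map (measurable_mul_const g).aemeasurable
  exact Measure.isHaarMeasure_eq_of_isProbabilityMeasure _ _

section bridge

variable [IsTopologicalGroup G] [CompactSpace G] [SecondCountableTopology G] [NeZero l] [MeasurableSpace G]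
  [BorelSpace G] (μ : Measure G) [IsProbabilityMeasure μ] [μ.IsHaarMeasure]
  [μ.IsMulRightInvariant]
  (B : LieBasis ι n) (g : ℝ)

lemma energy_eq (F : YM.Sm (ld B) (Link D l)) :
    energy B μ g F.1 = Pool.Agent.W653.SC.en μ g F := by
  unfold energy Pool.Agent.W653.SC.en
  congr 1
  · congr 1
    unfold YM.Gam
    rw [map_sum]
    refine Eq.trans ?_ (Fintype.sum_prod_type fun j : Link D l × Fin n =>
      (ld B).I μ ((ld B).Dv j F * (ld B).Dv j F)).symm
    refine Finset.sum_congr rfl fun e _ => Finset.sum_congr rfl fun a _ => ?_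
    rw [YM.I_apply]
    refine integral_congr_ae (Filter.Eventually.of_forall fun U => ?_)
    show (dlink B e a F.1 U) ^ 2 = ((ld B).Dv (e, a) F).1 U * ((ld B).Dv (e, a) F).1 U
    rw [dlink_eq, sq]
  · congr 1
    rw [YM.I_apply]
    refine integral_congr_ae (Filter.Eventually.of_forall fun U => ?_)
    show magnetic ι U * F.1 U ^ 2 = (YM.VT (ld B) D l).1 U * (F.1 U * F.1 U)
    rw [magnetic_eq B, sq]

lemma norm_eq (F : YM.Sm (ld B) (Link D l)) :
    ∫ U, F.1 U ^ 2 ∂(Measure.pi fun _ : Link D l => μ) = (ld B).I μ (F * F) := by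
  rw [YM.I_apply]
  refine integral_congr_ae (Filter.Eventually.of_forall fun U => ?_)
  show F.1 U ^ 2 = F.1 U * F.1 U
  rw [sq]

lemma energy_nonneg (F : YM.Sm (ld B) (Link D l)) : 0 ≤ energy B μ g F.1 := by
  rw [energy_eq]
  exact Pool.Agent.W653.SC.en_nonneg g F

lemma energy_nonneg' {F : (Link D l → G) → ℝ} (hS : IsSmooth ι F) : 0 ≤ energy B μ g F :=
  energy_nonneg μ B g ⟨F, hS⟩

lemma energy_smul (c : ℝ) (F : YM.Sm (ld B) (Link D l)) :
    energy B μ g (c • F).1 = c ^ 2 * energy B μ g F.1 := by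
  rw [energy_eq, energy_eq, Pool.Agent.W653.SC.en_smul]

lemma ground_bdd : BddBelow {E : ℝ | ∃ Ψ : (Link D l → G) → ℝ, IsState ι μ Ψ ∧
    energy B μ g Ψ = E} := by
  refine ⟨0, ?_⟩
  rintro E ⟨Ψ, hΨ, rfl⟩
  exact energy_nonneg' μ B g hΨ.smooth

lemma ground_nonempty : {E : ℝ | ∃ Ψ : (Link D l → G) → ℝ, IsState ι μ Ψ ∧
    energy B μ g Ψ = E}.Nonempty := by
  refine ⟨_, fun _ => 1, ⟨⟨fun _ => 1, contDiff_const, fun _ => rfl⟩, fun _ _ => rfl, ?_⟩, rfl⟩
  simp

lemma ground_nonneg : 0 ≤ groundEnergy D l B μ g := by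
  refine Real.sInf_nonneg ?_
  rintro E ⟨Ψ, hΨ, rfl⟩
  exact energy_nonneg' μ B g hΨ.smooth

lemma state_of (u : YM.Sm (ld B) (Link D l)) (hu : YM.Inv u) (h1 : (ld B).I μ (u * u) = 1) :
    IsState ι μ u.1 :=
  ⟨u.2, (inv_iff B u).1 hu, by rw [norm_eq]; exact h1⟩

/-- The ground state energy is a lower bound. -/
lemma ground_le (u : YM.Sm (ld B) (Link D l)) (hu : YM.Inv u) :
    groundEnergy D l B μ g * (ld B).I μ (u * u) ≤ energy B μ g u.1 := by
  obtain ⟨Z, hZ⟩ : ∃ Z : ℝ, Z = (ld B).I μ (u * u) := ⟨_, rfl⟩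
  have hZ0 : 0 ≤ Z := by rw [hZ]; exact YM.I_sq_nonneg μ _
  rw [← hZ]
  rcases hZ0.eq_or_lt with h0 | h0
  · rw [← h0, mul_zero]
    exact energy_nonneg μ B g u
  · obtain ⟨c, hc⟩ : ∃ c : ℝ, c = (Real.sqrt Z)⁻¹ := ⟨_, rfl⟩
    have hc2 : c ^ 2 * Z = 1 := by
      rw [hc, inv_pow, Real.sq_sqrt h0.le, inv_mul_cancel₀ h0.ne']
    have hn1 : (ld B).I μ (c • u * (c • u)) = 1 := by
      rw [smul_mul_assoc, mul_smul_comm, map_smul, map_smul, smul_eq_mul, smul_eq_mul, ← hZ,
        ← hc2]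
      ring
    have h1 : groundEnergy D l B μ g ≤ energy B μ g (c • u).1 :=
      csInf_le (ground_bdd μ B g) ⟨_, state_of μ B (c • u) (hu.smul c) hn1, rfl⟩
    rw [energy_smul] at h1
    calc groundEnergy D l B μ g * Z ≤ (c ^ 2 * energy B μ g u.1) * Z :=
          mul_le_mul_of_nonneg_right h1 hZ0
      _ = (c ^ 2 * Z) * energy B μ g u.1 := by ring
      _ = _ := by rw [hc2, one_mul]

/-- Existence of near ground states. -/
lemma near_min {ε : ℝ} (hε : 0 < ε) : ∃ Ω : YM.Sm (ld B) (Link D l), YM.Inv Ω ∧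
    (ld B).I μ (Ω * Ω) = 1 ∧ Pool.Agent.W653.SC.en μ g Ω ≤ groundEnergy D l B μ g + ε := by
  obtain ⟨E, ⟨Ω, hΩ, rfl⟩, hE⟩ := exists_lt_of_csInf_lt (ground_nonempty μ B g)
    (show sInf {E : ℝ | ∃ Ψ : (Link D l → G) → ℝ, IsState ι μ Ψ ∧ energy B μ g Ψ = E} <
      groundEnergy D l B μ g + ε by unfold groundEnergy; linarith)
  refine ⟨⟨Ω, hΩ.smooth⟩, (inv_iff B _).2 hΩ.inv, ?_, ?_⟩
  · rw [← norm_eq]; exact hΩ.norm
  · rw [← energy_eq]; exact hE.le

section wave

variable {κ : Type} [Fintype κ] {Ψ : (Link D l → G) → κ → ℂ}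

/-- Real parts of the components. -/
def reS (h : IsWave ι μ Ψ) (k : κ) : YM.Sm (ld B) (Link D l) := ⟨fun U => (Ψ U k).re, h.re k⟩

/-- Imaginary parts of the components. -/
def imS (h : IsWave ι μ Ψ) (k : κ) : YM.Sm (ld B) (Link D l) := ⟨fun U => (Ψ U k).im, h.im k⟩

lemma wave_norm (h : IsWave ι μ Ψ) :
    ∑ k, ((ld B).I μ (reS μ B h k * reS μ B h k) + (ld B).I μ (imS μ B h k * imS μ B h k)) =
      1 := by
  rw [← h.norm]
  simp only [← map_add]
  rw [← map_sum, YM.I_apply]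
  refine integral_congr_ae (Filter.Eventually.of_forall fun U => ?_)
  show (ld B).ev U (∑ k, (reS μ B h k * reS μ B h k + imS μ B h k * imS μ B h k)) = _
  rw [map_sum]
  refine Finset.sum_congr rfl fun k _ => ?_
  rw [map_add, map_mul, map_mul]
  show (Ψ U k).re * (Ψ U k).re + (Ψ U k).im * (Ψ U k).im = _
  rw [← Complex.normSq_apply, Complex.normSq_eq_norm_sq]

lemma wave_le (h : IsWave ι μ Ψ) {E : ℝ}
    (hre : ∀ k, E * (ld B).I μ (reS μ B h k * reS μ B h k) ≤ energy B μ g (reS μ B h k).1)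
    (him : ∀ k, E * (ld B).I μ (imS μ B h k * imS μ B h k) ≤ energy B μ g (imS μ B h k).1) :
    E ≤ energyV B μ g Ψ := by
  have h1 : E = E * ∑ k, ((ld B).I μ (reS μ B h k * reS μ B h k) +
      (ld B).I μ (imS μ B h k * imS μ B h k)) := by rw [wave_norm, mul_one]
  rw [h1, Finset.mul_sum]
  refine Finset.sum_le_sum fun k _ => ?_
  rw [mul_add]
  exact add_le_add (hre k) (him k)

end wave

end bridge

open Pool.Agent.W653.SC (cmat)

/-! ### representations -/

section rep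

variable {M : ℕ} (ρ : G →* UU M)

/-- The representation by matrices. -/
def rM : G →* Mt M := (Submonoid.subtype _).comp ρ

lemma rM_apply (h : G) : rM ρ h = (ρ h : Mt M) := rfl

lemma rM_cont (h : Continuous ρ) : Continuous (rM ρ) := continuous_subtype_val.comp h

lemma rM_unit (h : G) : rM ρ h * (rM ρ h)ᴴ = 1 := Unitary.mul_star_self_of_mem (ρ h).2

lemma rM_inv (h : G) : (((ρ h)⁻¹ : UU M) : Mt M) = (rM ρ h)ᴴ := rfl

lemma cas_eq (B : LieBasis ι n) : Pool.Agent.W653.SC.cas (ld B) (rM ρ) = casimir B ρ := rfl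

/-- Schur's lemma for central elements. -/
lemma schur (hM : 0 < M) (hρ : IsIrred ρ) {z : G} (hz : ∀ h, z * h = h * z) :
    ∃ c : ℂ, (ρ z : Mt M) = c • (1 : Mt M) := by
  have hne : Nontrivial (Fin M → ℂ) := by
    have : Nonempty (Fin M) := ⟨⟨0, hM⟩⟩
    infer_instance
  obtain ⟨c, hc⟩ := Module.End.exists_eigenvalue (Matrix.toLin' (ρ z : Mt M))
  refine ⟨c, ?_⟩
  have hcomm : ∀ h : G, (ρ h : Mt M) * (ρ z : Mt M) = (ρ z : Mt M) * (ρ h : Mt M) := by
    intro h
    have h1 : ρ h * ρ z = ρ z * ρ h := by rw [← map_mul, ← map_mul, hz]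
    exact congrArg (fun v : UU M => (v : Mt M)) h1
  have hinv : ∀ h, ∀ v ∈ Module.End.eigenspace (Matrix.toLin' (ρ z : Mt M)) c,
      (ρ h : Mt M).mulVec v ∈ Module.End.eigenspace (Matrix.toLin' (ρ z : Mt M)) c := by
    intro h v hv
    rw [Module.End.mem_eigenspace_iff, Matrix.toLin'_apply] at hv ⊢
    rw [Matrix.mulVec_mulVec, ← hcomm, ← Matrix.mulVec_mulVec, hv, Matrix.mulVec_smul]
  have htop := (hρ _ hinv).resolve_left hc
  ext i j
  have h1 : (Pi.single j 1 : Fin M → ℂ) ∈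
      Module.End.eigenspace (Matrix.toLin' (ρ z : Mt M)) c := by rw [htop]; trivial
  rw [Module.End.mem_eigenspace_iff, Matrix.toLin'_apply, Matrix.mulVec_single_one] at h1
  have h2 := congrFun h1 i
  rw [Matrix.smul_apply, smul_eq_mul, Matrix.one_apply]
  refine h2.trans ?_
  rw [Pi.smul_apply, smul_eq_mul, Pi.single_apply]

/-- The central character of an irreducible representation. -/
lemma central_char (hM : 0 < M) (hρ : IsIrred ρ) : ∃ w0 : Subgroup.center G →* ℂ,
    ∀ z : Subgroup.center G, (ρ (z : G) : Mt M) = w0 z • (1 : Mt M) := by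
  have h0 : ∀ z : Subgroup.center G, ∃ c : ℂ, (ρ (z : G) : Mt M) = c • (1 : Mt M) := fun z =>
    schur ρ hM hρ fun h => (Subgroup.mem_center_iff.1 z.2 h).symm
  choose c hc using h0
  have hinj : ∀ a b : ℂ, a • (1 : Mt M) = b • (1 : Mt M) → a = b := by
    intro a b h
    have := congrFun (congrFun h ⟨0, hM⟩) ⟨0, hM⟩
    simpa using this
  refine ⟨⟨⟨c, ?_⟩, ?_⟩, hc⟩
  · apply hinj
    rw [← hc, one_smul]
    show (ρ (1 : G) : Mt M) = 1
    rw [map_one]; rfl
  · intro a b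
    apply hinj
    show c (a * b) • (1 : Mt M) = (c a * c b) • (1 : Mt M)
    rw [← hc]
    have h1 : ρ ((a * b : Subgroup.center G) : G) = ρ (a : G) * ρ (b : G) := by
      rw [← map_mul]; rfl
    have h2 : (ρ ((a * b : Subgroup.center G) : G) : Mt M) =
        (ρ (a : G) : Mt M) * (ρ (b : G) : Mt M) := by rw [h1]; rfl
    rw [h2, hc a, hc b, smul_mul_smul_comm, mul_one]

end rep

lemma tension_limit {K : ℝ} (hK : 0 < K) (hD : 1 ≤ D) {g : ℝ} (hg : 0 < g)
    (hgK : 128 * ((D : ℝ) - 1) < g ^ 4 * K ^ 2) {E0 m I e : ℝ} (hI : 0 ≤ I) (hm : 0 ≤ m)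
    (H : ∀ Y0 : ℝ, 0 < Y0 → 2 * Y0 ^ 2 - K * Y0 + 16 * ((D : ℝ) - 1) / g ^ 4 < 0 →
      (E0 + g ^ 2 / 2 * (K - 2 * Y0) * m) * I ≤ e) :
    (E0 + tension K D g * m) * I ≤ e := by
  have hg2 : 0 < g ^ 2 := by positivity
  have hg4 : 0 < g ^ 4 := by positivity
  have hD' : (0 : ℝ) ≤ D - 1 := by
    have : (1 : ℝ) ≤ D := by exact_mod_cast hD
    linarith
  obtain ⟨w, hw⟩ : ∃ w, w = ((D : ℝ) - 1) / g ^ 4 := ⟨_, rfl⟩
  have hw0 : 0 ≤ w := by rw [hw]; positivity
  have hw1 : 128 * ((D : ℝ) - 1) / g ^ 4 = 128 * w := by rw [hw]; ring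
  have hw2 : 16 * ((D : ℝ) - 1) / g ^ 4 = 16 * w := by rw [hw]; ring
  have hpos : 0 < K ^ 2 - 128 * w := by
    rw [← hw1, sub_pos, div_lt_iff₀ hg4]
    linarith
  obtain ⟨s, hs⟩ : ∃ s, s = Real.sqrt (K ^ 2 - 128 * w) := ⟨_, rfl⟩
  have hs0 : 0 < s := by rw [hs]; exact Real.sqrt_pos.2 hpos
  have hs2 : s ^ 2 = K ^ 2 - 128 * w := by rw [hs]; exact Real.sq_sqrt hpos.le
  have hsN : s ≤ K := by
    by_contra hc
    push Not at hc
    nlinarith
  have hten : tension K D g = g ^ 2 / 4 * (K + s) := by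
    unfold tension
    rw [hw1, ← hs]
  rw [hten]
  refine le_of_forall_pos_le_add fun δ hδ => ?_
  obtain ⟨ε, hε⟩ : ∃ ε, ε = min (s / 4) (δ / (g ^ 2 * m * I + 1)) := ⟨_, rfl⟩
  have hden : 0 < g ^ 2 * m * I + 1 := by positivity
  have hε0 : 0 < ε := by rw [hε]; exact lt_min (by positivity) (by positivity)
  have hε1 : ε ≤ s / 4 := by rw [hε]; exact min_le_left _ _
  have hε2 : ε * (g ^ 2 * m * I + 1) ≤ δ := by
    rw [← le_div_iff₀ hden, hε]; exact min_le_right _ _
  have h1 := H ((K - s) / 4 + ε) (by linarith) (by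
    rw [hw2]
    have e1 : 2 * ((K - s) / 4 + ε) ^ 2 - K * ((K - s) / 4 + ε) + 16 * w =
        2 * ε * (ε - s / 2) + (s ^ 2 - (K ^ 2 - 128 * w)) / 8 := by ring
    rw [e1, hs2, sub_self, zero_div, add_zero]
    have : ε - s / 2 < 0 := by linarith
    nlinarith)
  have h2 : (E0 + g ^ 2 / 2 * (K - 2 * ((K - s) / 4 + ε)) * m) * I =
      (E0 + g ^ 2 / 4 * (K + s) * m) * I - ε * (g ^ 2 * m * I) := by ring
  rw [h2] at h1
  nlinarith

section pairs

variable [IsTopologicalGroup G] [CompactSpace G] [SecondCountableTopology G] [NeZero l] [MeasurableSpace G]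
  [BorelSpace G] (μ : Measure G) [IsProbabilityMeasure μ] [μ.IsHaarMeasure]
  [μ.IsMulRightInvariant] (B : LieBasis ι n) (g : ℝ) {M : ℕ} (ρ : G →* UU M)

lemma sum_bl {F : (Fin M × Fin M) × Bool → ℝ} :
    ∑ c, F c = ∑ p : Fin M × Fin M, (F (p, true) + F (p, false)) := by
  rw [Fintype.sum_prod_type]
  exact Finset.sum_congr rfl fun p _ => Fintype.sum_bool _

/-- Pairs of static charges from families of smooth functions. -/
lemma pair_of (x y : Fin D → ZMod l) (u : (Fin M × Fin M) × Bool → YM.Sm (ld B) (Link D l))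
    (hcov : ∀ (γ : (Fin D → ZMod l) → G) (U : Link D l → G),
      cmat (fun c => (u c).1) (YM.gt γ U) =
        rM ρ (γ x) * cmat (fun c => (u c).1) U * (rM ρ (γ y))ᴴ)
    (hn : ∑ c, (ld B).I μ (u c * u c) = 1) :
    IsPair ι μ ρ x y (cmat fun c => (u c).1) ∧
      energyV B μ g (ent (cmat fun c => (u c).1)) =
        ∑ c, Pool.Agent.W653.SC.en μ g (u c) := by
  refine ⟨⟨⟨fun p => (u (p, true)).2, fun p => (u (p, false)).2, ?_⟩, fun γ U => ?_⟩, ?_⟩
  · rw [← hn, sum_bl]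
    simp only [← map_add]
    rw [← map_sum, YM.I_apply]
    refine integral_congr_ae (Filter.Eventually.of_forall fun U => ?_)
    show _ = (ld B).ev U _
    rw [map_sum]
    refine Finset.sum_congr rfl fun p _ => ?_
    rw [map_add, map_mul, map_mul]
    show ‖(⟨(u (p, true)).1 U, (u (p, false)).1 U⟩ : ℂ)‖ ^ 2 =
      (u (p, true)).1 U * (u (p, true)).1 U + (u (p, false)).1 U * (u (p, false)).1 U
    rw [← Complex.normSq_eq_norm_sq, Complex.normSq_apply]
  · exact hcov γ U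
  · rw [sum_bl]
    refine Finset.sum_congr rfl fun p _ => ?_
    rw [← energy_eq, ← energy_eq]
    rfl

/-- The energy of a pair is at least the ground state energy. -/
lemma pair_ge (x y : Fin D → ZMod l) {Ψ : (Link D l → G) → Mt M} (h : IsPair ι μ ρ x y Ψ) :
    groundEnergy D l B μ g ≤ energyV B μ g (ent Ψ) := by
  obtain ⟨Y, hY⟩ : ∃ Y : (Fin M × Fin M) × Bool → YM.Sm (ld B) (Link D l),
      Y = fun c => if c.2 then reS μ B h.wave c.1 else imS μ B h.wave c.1 := ⟨_, rfl⟩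
  have hY1 : ∀ p, Y (p, true) = reS μ B h.wave p := fun p => by rw [hY]; rfl
  have hY2 : ∀ p, Y (p, false) = imS μ B h.wave p := fun p => by rw [hY]; rfl
  have hsq : ∀ U : Link D l → G, (∑ c, Y c * Y c).1 U = (trace ((Ψ U)ᴴ * Ψ U)).re := by
    intro U
    have e1 : (∑ c, Y c * Y c).1 U = ∑ c, (Y c).1 U * (Y c).1 U := by
      show (ld B).ev U (∑ c, Y c * Y c) = _
      rw [map_sum]
      exact Finset.sum_congr rfl fun c _ => by rw [map_mul]; rfl
    rw [e1, sum_bl, Fintype.sum_prod_type, trace, Complex.re_sum, Finset.sum_comm]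
    refine Finset.sum_congr rfl fun j _ => ?_
    rw [diag_apply, mul_apply, Complex.re_sum]
    refine Finset.sum_congr rfl fun i _ => ?_
    rw [hY1, hY2, conjTranspose_apply]
    show (Ψ U i j).re * (Ψ U i j).re + (Ψ U i j).im * (Ψ U i j).im =
      (star (Ψ U i j) * Ψ U i j).re
    simp [Complex.mul_re]
  have hpos := Pool.Agent.W337.SC.Pos.main G μ N n D l (ld B) g (groundEnergy D l B μ g)
    (fun f hf => by rw [← energy_eq]; exact ground_le μ B g f hf) _ Y (fun γ => by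
      have e1 : ∑ a, YM.gs γ (Y a) * YM.gs γ (Y a) = YM.gs γ (∑ a, Y a * Y a) := by
        rw [map_sum]
        exact Finset.sum_congr rfl fun a _ => by rw [map_mul]
      rw [e1]
      refine YM.ev_ext fun U => ?_
      show (∑ a, Y a * Y a).1 (gauge γ U) = (∑ a, Y a * Y a).1 U
      rw [hsq, hsq, h.gauss, rM_inv, ← rM_apply]
      have hx : (rM ρ (γ x))ᴴ * rM ρ (γ x) = 1 := mul_eq_one_comm.1 (rM_unit ρ (γ x))
      have hy : (rM ρ (γ y))ᴴ * rM ρ (γ y) = 1 := mul_eq_one_comm.1 (rM_unit ρ (γ y))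
      rw [conjTranspose_mul, conjTranspose_mul, conjTranspose_conjTranspose]
      have e2 : rM ρ (γ y) * ((Ψ U)ᴴ * (rM ρ (γ x))ᴴ) * (rM ρ (γ x) * Ψ U * (rM ρ (γ y))ᴴ) =
          rM ρ (γ y) * ((Ψ U)ᴴ * ((rM ρ (γ x))ᴴ * rM ρ (γ x)) * Ψ U * (rM ρ (γ y))ᴴ) := by
        noncomm_ring
      rw [e2, hx, mul_one, trace_mul_comm, mul_assoc, hy, mul_one])
  have hn : ∑ a, (ld B).I μ (Y a * Y a) = 1 := by
    rw [sum_bl, ← wave_norm μ B h.wave]
    exact Finset.sum_congr rfl fun p _ => by rw [hY1, hY2]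
  have he : ∑ a, Pool.Agent.W653.SC.en μ g (Y a) = energyV B μ g (ent Ψ) := by
    rw [sum_bl]
    refine Finset.sum_congr rfl fun p _ => ?_
    rw [hY1, hY2, ← energy_eq, ← energy_eq]
    rfl
  rw [hn, mul_one, he] at hpos
  exact hpos

end pairs

/-! ### upper bounds for all couplings -/

section upper

variable [IsTopologicalGroup G] [CompactSpace G] [SecondCountableTopology G] [MeasurableSpace G]
  [BorelSpace G] (μ : Measure G) [IsProbabilityMeasure μ] [μ.IsHaarMeasure]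
  [μ.IsMulRightInvariant] (B : LieBasis ι n) (g : ℝ) {M : ℕ} (ρ : G →* UU M)

lemma pair_bdd [NeZero l] (x y : Fin D → ZMod l) : BddBelow (pairEnergies B μ g ρ x y) :=
  ⟨groundEnergy D l B μ g, by rintro E ⟨Ψ, hΨ, rfl⟩; exact pair_ge μ B g ρ x y hΨ⟩

lemma ld_inj : Function.Injective (ld B).rho := fun _ _ h => hF.out.2 (Subtype.ext h)

include μ in
lemma smooth_rep (hρ : Continuous ρ) :
    ∃ f : Mt N → Mt M, ContDiff ℝ ∞ f ∧ ∀ h, rM ρ h = f ((ld B).rho h) := by
  have hT2 : T2Space G := Pool.Agent.W653.SC.t2_tra hF.out.1 hF.out.2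
  exact Pool.Agent.W557.SC.Gard.main Pool.Agent.W653.SC.par G μ N M (ld B).rho (rM ρ) (ld B).cont
    (ld_inj B) (ld B).unit (rM_cont ρ hρ)

/-- The string state. -/
lemma string_le [NeZero l] (hM : 0 < M) (hρ : Continuous ρ) (x y : Fin D → ZMod l)
    {Ω : YM.Sm (ld B) (Link D l)} (hΩ : YM.Inv Ω) (hn : (ld B).I μ (Ω * Ω) = 1) :
    ∃ Ψ : (Link D l → G) → Mt M, IsPair ι μ ρ x y Ψ ∧ energyV B μ g (ent Ψ) =
      Pool.Agent.W653.SC.en μ g Ω + g ^ 2 / 2 * (casimir B ρ * dist1 x y) := by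
  obtain ⟨u, h1, h2, h3⟩ := Pool.Agent.W646.SC.str_main G μ N n M D l (ld B) (rM ρ) (rM_unit ρ) hM
    (smooth_rep μ B ρ hρ) x y g Ω hΩ hn
  obtain ⟨h4, h5⟩ := pair_of μ B g ρ x y u h1 h2
  refine ⟨_, h4, h5.trans (h3.trans ?_)⟩
  rw [cas_eq]
  rfl

lemma casimir_nonneg : 0 ≤ casimir B ρ := by
  unfold casimir
  positivity

/-- The potential is bounded by the ground state energy and the energy of a string. -/
lemma bounds [NeZero l] (hM : 0 < M) (hρ : Continuous ρ) (x y : Fin D → ZMod l) :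
    (pairEnergies B μ g ρ x y).Nonempty ∧
      groundEnergy D l B μ g ≤ potential B μ g ρ x y ∧
      potential B μ g ρ x y ≤
        groundEnergy D l B μ g + g ^ 2 / 2 * casimir B ρ * dist1 x y := by
  have h1 : ∀ ε : ℝ, 0 < ε → ∃ E ∈ pairEnergies B μ g ρ x y,
      E ≤ groundEnergy D l B μ g + g ^ 2 / 2 * casimir B ρ * dist1 x y + ε := by
    intro ε hε
    obtain ⟨Ω, hΩ, hn, hE⟩ := near_min (D := D) (l := l) μ B g hε
    obtain ⟨Ψ, hΨ, h2⟩ := string_le μ B g ρ hM hρ x y hΩ hn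
    refine ⟨_, ⟨Ψ, hΨ, rfl⟩, ?_⟩
    rw [h2]
    linarith
  obtain ⟨E, hE, -⟩ := h1 1 one_pos
  refine ⟨⟨E, hE⟩, le_csInf ⟨E, hE⟩ ?_, le_of_forall_pos_le_add fun ε hε => ?_⟩
  · rintro E ⟨Ψ, hΨ, rfl⟩
    exact pair_ge μ B g ρ x y hΨ
  · obtain ⟨E, hE, h2⟩ := h1 ε hε
    exact (csInf_le (pair_bdd μ B g ρ x y) hE).trans h2

/-- Screening. -/
lemma screening (hD : 2 ≤ D) (hM : 0 < M) (hρ : Continuous ρ)
    (hcen : ∀ z ∈ Subgroup.center G, ρ z = 1) :
    ∃ C : ℝ, ∀ (l : ℕ) [NeZero l] (x y : Fin D → ZMod l),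
      potential B μ g ρ x y ≤ groundEnergy D l B μ g + C := by
  have hT2 : T2Space G := Pool.Agent.W653.SC.t2_tra hF.out.1 hF.out.2
  obtain ⟨k, F, f, hf, hFf, hFe, hne⟩ := Pool.Agent.W646.SC.eqv_main Pool.Agent.W653.SC.par G μ N M
    (ld B).rho (rM ρ) (ld B).cont (ld_inj B) (ld B).unit
    (rM_cont ρ hρ) (rM_unit ρ) hM (fun z hz => by
      have h1 := hcen z (Subgroup.mem_center_iff.2 fun h => (hz h).symm)
      show (ρ z : Mt M) = 1
      rw [h1]; rfl)
  obtain ⟨C, hC0, hC⟩ := Pool.Agent.W653.SC.far (L := ld B) μ Pool.Agent.W337.SC.Osc.main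
    Pool.Agent.W395.SC.Geo.main Pool.Agent.W64.SC.main hD (rM ρ) F f hf hFf hFe hne g
  have hcas : 0 ≤ g ^ 2 / 2 * casimir B ρ := mul_nonneg (by positivity) (casimir_nonneg B ρ)
  refine ⟨C + g ^ 2 / 2 * casimir B ρ * (D * (k + 1) + (k + 1) : ℕ), ?_⟩
  intro l _ x y
  by_cases hfar : k + 1 < l ∧ k + 1 < Pool.Agent.W58.dT x y
  · refine le_of_forall_pos_le_add fun ε hε => ?_
    obtain ⟨Ω, hΩ, hn, hE⟩ := near_min (D := D) (l := l) μ B g (half_pos hε)
    obtain ⟨u, h1, h2, h3⟩ := hC l hfar.1 x y hfar.2 Ω hΩ hn (ε / 2) (half_pos hε)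
    obtain ⟨h4, h5⟩ := pair_of μ B g ρ x y u h1 h2
    have h6 := csInf_le (pair_bdd μ B g ρ x y) ⟨_, h4, rfl⟩
    rw [h5] at h6
    have h7 : potential B μ g ρ x y ≤ ∑ c, Pool.Agent.W653.SC.en μ g (u c) := h6
    have h8 : 0 ≤ g ^ 2 / 2 * casimir B ρ * (D * (k + 1) + (k + 1) : ℕ) :=
      mul_nonneg hcas (Nat.cast_nonneg _)
    linarith
  · have h1 : dist1 x y ≤ D * (k + 1) + (k + 1) := by
      have h2 : dist1 x y ≤ D * l := (Pool.Agent.W395.SC.Geo.main D l k hD).2.1 x y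
      by_cases h3 : k + 1 < l
      · have h4 : ¬k + 1 < Pool.Agent.W58.dT x y := fun h => hfar ⟨h3, h⟩
        have h5 : dist1 x y ≤ k + 1 := not_lt.1 h4
        omega
      · have h4 : D * l ≤ D * (k + 1) := Nat.mul_le_mul_left _ (not_lt.1 h3)
        omega
    have h2 := (bounds μ B g ρ hM hρ x y).2.2
    have h3 : g ^ 2 / 2 * casimir B ρ * dist1 x y ≤
        g ^ 2 / 2 * casimir B ρ * (D * (k + 1) + (k + 1) : ℕ) :=
      mul_le_mul_of_nonneg_left (by exact_mod_cast h1) hcas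
    linarith

end upper

/-! ### lower bounds for strong coupling -/

section lower

variable [NeZero l] [MeasurableSpace G] {μ : Measure G} (B : LieBasis ι n) {g : ℝ}

/-- A character takes a value different from `1`. -/
lemma exists_ne_one {H : Type*} [Group H] {χ : H →* ℂ} (h : χ ≠ 1) : ∃ z, χ z ≠ 1 := by
  by_contra hc
  push Not at hc
  exact h (MonoidHom.ext hc)

lemma geom_zero {ζ : ℂ} {p : ℕ} (h1 : ζ ^ p = 1) (h2 : ζ ≠ 1) : ∑ t ∈ Finset.range p, ζ ^ t = 0 := by
  have h4 := geom_sum_mul ζ p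
  rw [h1, sub_self] at h4
  exact (mul_eq_zero.1 h4).resolve_right (sub_ne_zero.2 h2)

lemma cen_comm (z : Subgroup.center G) (h : G) : (z : G) * h = h * (z : G) :=
  (Subgroup.mem_center_iff.1 z.2 h).symm

lemma char_pow {χ : Subgroup.center G →* ℂ} {z : Subgroup.center G} {p : ℕ}
    (hp : (z : G) ^ p = 1) : χ z ^ p = 1 := by
  have h1 : z ^ p = 1 := Subtype.ext (by rw [Subgroup.coe_pow, hp]; rfl)
  rw [← map_pow, h1, map_one]

/-- A wave function with given charges is twisted by the centre on the balls of nontrivial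
total charge. -/
lemma prt_of_charge {κ : Type} {χ : (Fin D → ZMod l) → Subgroup.center G →* ℂ}
    {Ψ : (Link D l → G) → κ → ℂ} (hq : HasCharge χ Ψ) (z : Subgroup.center G) {p : ℕ}
    (hp : (z : G) ^ p = 1) (x : Fin D → ZMod l) (r : ℕ)
    (hr : (∏ s ∈ Finset.univ.filter (fun s => dist1 x s ≤ r), χ s) z ≠ 1) (k : κ)
    (U : Link D l → G) :
    ∑ t ∈ Finset.range p, Ψ ((zc (z : G) x r) ^ t * U) k = 0 := by
  obtain ⟨Q, hQ⟩ : ∃ Q : Subgroup.center G →* ℂ,
      Q = ∏ s ∈ Finset.univ.filter (fun s => dist1 x s ≤ r), χ s := ⟨_, rfl⟩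
  rw [← hQ] at hr
  have h1 : ∀ t : ℕ, Ψ ((zc (z : G) x r) ^ t * U) k = (Q z) ^ t * Ψ U k := by
    intro t
    have e1 : (zc (z : G) x r) ^ t = zc (((z ^ t : Subgroup.center G) : G)) x r := by
      funext e
      rw [Pi.pow_apply, Subgroup.coe_pow]
      unfold zc
      rw [← zpow_natCast, ← zpow_natCast, ← _root_.zpow_mul, ← _root_.zpow_mul, mul_comm]
    rw [e1, ← gt_zb (cen_comm (z ^ t)) x r U]
    have h2 := hq (fun s => if dist1 x s ≤ r then z ^ t else 1) U k
    have e0 : (fun s => (((if dist1 x s ≤ r then z ^ t else 1 : Subgroup.center G)) : G)) =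
        zb ((z ^ t : Subgroup.center G) : G) x r := by
      funext s
      unfold zb
      show ((if dist1 x s ≤ r then z ^ t else 1 : Subgroup.center G) : G) =
        if dist1 x s ≤ r then ((z ^ t : Subgroup.center G) : G) else 1
      split_ifs <;> rfl
    rw [e0] at h2
    refine Eq.trans h2 ?_
    congr 1
    have e2 : ∀ s, χ s (if dist1 x s ≤ r then z ^ t else 1) =
        if dist1 x s ≤ r then χ s (z ^ t) else 1 := by
      intro s
      split_ifs
      · rfl
      · rw [map_one]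
    rw [Finset.prod_congr rfl fun s _ => e2 s, ← Finset.prod_filter, ← map_pow, hQ,
      MonoidHom.finsetProd_apply]
  rw [Finset.sum_congr rfl fun t _ => h1 t, ← Finset.sum_mul, geom_zero (char_pow hp) hr, zero_mul]

/-- Gauge invariant functions take the same values under the twists on parallel hyperplanes. -/
lemma twist_all {κ : Type} {χ : Fin D → Subgroup.center G →* ℂ} {Ψ : (Link D l → G) → κ → ℂ}
    (h : HasFlux χ Ψ) (i : Fin D) (z : Subgroup.center G) (r : ZMod l) (U : Link D l → G)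
    (m : κ) : Ψ (Pool.Agent.W653.CF.hz (z : G) i r * U) m = χ i z * Ψ U m := by
  have hz := cen_comm z
  have h0 : ∀ t : ℕ, ∀ U, Ψ (Pool.Agent.W653.CF.hz (z : G) i (t : ZMod l) * U) m =
      χ i z * Ψ U m := by
    intro t
    induction t with
    | zero =>
      intro U
      have h1 : Pool.Agent.W653.CF.hz (z : G) i ((0 : ℕ) : ZMod l) * U = twist i (z : G) U := by
        funext e
        rw [Pi.mul_apply, Nat.cast_zero]
        unfold twist
        by_cases he : e.2 = i ∧ e.1 i = 0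
        · rw [if_pos he, Pool.Agent.W653.CF.hz_of he]
        · rw [if_neg he, Pool.Agent.W653.CF.hz_not he, one_mul]
      rw [h1]
      exact h.flux i z U m
    | succ t ih =>
      intro U
      have h1 := gt_hz hz i ((t : ℕ) : ZMod l) U
      rw [Nat.cast_succ, ← h1]
      have h2 := congrFun (h.inv (fun s => if s i = (t : ZMod l) + 1 then (z : G) else 1)
        (Pool.Agent.W653.CF.hz (z : G) i (t : ZMod l) * U)) m
      exact h2.trans (ih U)
  have h1 := h0 r.val U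
  rwa [ZMod.natCast_zmod_val] at h1

lemma prt_of_flux {κ : Type} {χ : Fin D → Subgroup.center G →* ℂ} {Ψ : (Link D l → G) → κ → ℂ}
    (h : HasFlux χ Ψ) (i : Fin D) (z : Subgroup.center G) {p : ℕ} (hp : (z : G) ^ p = 1)
    (hi : χ i z ≠ 1) (r : ZMod l) (U : Link D l → G) (m : κ) :
    ∑ t ∈ Finset.range p, Ψ ((Pool.Agent.W653.CF.hz (z : G) i r) ^ t * U) m = 0 := by
  have h2 : ∀ t : ℕ, Ψ ((Pool.Agent.W653.CF.hz (z : G) i r) ^ t * U) m =
      (χ i z) ^ t * Ψ U m := by
    intro t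
    induction t with
    | zero => rw [pow_zero, pow_zero, one_mul, one_mul]
    | succ t ih =>
      rw [pow_succ', mul_assoc, twist_all h i z, ih, pow_succ', mul_assoc]
  rw [Finset.sum_congr rfl fun t _ => h2 t, ← Finset.sum_mul, geom_zero (char_pow hp) hi, zero_mul]

/-- Finitely many elements of finite order have a common exponent. -/
lemma common_exp {ι : Type*} (T : Finset ι) (z : ι → G)
    (h : ∀ i ∈ T, ∃ p : ℕ, 0 < p ∧ z i ^ p = 1) : ∃ p : ℕ, 0 < p ∧ ∀ i ∈ T, z i ^ p = 1 := by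
  classical
  induction T using Finset.induction_on with
  | empty => exact ⟨1, one_pos, by simp⟩
  | insert a T ha ih =>
    obtain ⟨p, hp, h1⟩ := ih fun i hi => h i (Finset.mem_insert_of_mem hi)
    obtain ⟨q, hq, h2⟩ := h a (Finset.mem_insert_self a T)
    refine ⟨p * q, Nat.mul_pos hp hq, fun i hi => ?_⟩
    rcases Finset.mem_insert.1 hi with rfl | hi
    · rw [mul_comm, pow_mul, h2, one_pow]
    · rw [pow_mul, h1 i hi, one_pow]

/-- The charges of a pair. -/
lemma pair_charge {M : ℕ} {ρ : G →* UU M} {w0 : Subgroup.center G →* ℂ}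
    (hw : ∀ z : Subgroup.center G, (ρ (z : G) : Mt M) = w0 z • (1 : Mt M))
    {x y : Fin D → ZMod l} {Ψ : (Link D l → G) → Mt M} (h : IsPair ι μ ρ x y Ψ) :
    HasCharge (fun s => (if s = x then w0 else 1) *
      (if s = y then ((starRingEnd ℂ : ℂ →+* ℂ) : ℂ →* ℂ).comp w0 else 1)) (ent Ψ) := by
  intro γ U k
  show Ψ (gauge (fun s => (γ s : G)) U) k.1 k.2 = _ * Ψ U k.1 k.2
  have hinv : (((ρ (γ y : G))⁻¹ : UU M) : Mt M) = (starRingEnd ℂ) (w0 (γ y)) • (1 : Mt M) := by
    have h1 : (((ρ (γ y : G))⁻¹ : UU M) : Mt M) = (ρ (γ y : G) : Mt M)ᴴ := rfl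
    rw [h1, hw, conjTranspose_smul, conjTranspose_one]
    rfl
  rw [h.gauss, hw, hinv, smul_mul_assoc, one_mul, mul_smul_comm, mul_one, smul_smul,
    Matrix.smul_apply, smul_eq_mul]
  congr 1
  have e1 : ∀ s, ((if s = x then w0 else 1) *
      (if s = y then ((starRingEnd ℂ : ℂ →+* ℂ) : ℂ →* ℂ).comp w0 else 1)) (γ s) =
      (if s = x then w0 (γ s) else 1) * (if s = y then (starRingEnd ℂ) (w0 (γ s)) else 1) := by
    intro s
    rw [MonoidHom.mul_apply]
    split_ifs <;> rfl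
  rw [Finset.prod_congr rfl fun s _ => e1 s, Finset.prod_mul_distrib,
    Finset.prod_ite_eq' Finset.univ x, Finset.prod_ite_eq' Finset.univ y,
    if_pos (Finset.mem_univ _), if_pos (Finset.mem_univ _), mul_comm]

/-- The total charge of the balls around `x` which do not contain `y`. -/
lemma pair_ball {w0 w1 : Subgroup.center G →* ℂ} {x y : Fin D → ZMod l} {r : ℕ}
    (hr : r < dist1 x y) :
    ∏ s ∈ Finset.univ.filter (fun s => dist1 x s ≤ r),
      ((if s = x then w0 else 1) * (if s = y then w1 else 1)) = w0 := by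
  rw [Finset.prod_mul_distrib, Finset.prod_ite_eq', Finset.prod_ite_eq']
  have hx : x ∈ Finset.univ.filter (fun s => dist1 x s ≤ r) := by
    rw [Finset.mem_filter]
    refine ⟨Finset.mem_univ _, ?_⟩
    have : dist1 x x = 0 := rho1_self x
    rw [this]; exact Nat.zero_le _
  have hy : y ∉ Finset.univ.filter (fun s => dist1 x s ≤ r) := by
    rw [Finset.mem_filter]
    rintro ⟨_, h⟩
    exact absurd hr (not_lt.2 h)
  rw [if_pos hx, if_neg hy, mul_one]

end lower

section strong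

variable [IsTopologicalGroup G] [CompactSpace G] [SecondCountableTopology G] [NeZero l] [MeasurableSpace G]
  [BorelSpace G] {μ : Measure G} [IsProbabilityMeasure μ] [μ.IsHaarMeasure]
  [μ.IsMulRightInvariant] (B : LieBasis ι n) {g : ℝ}

lemma Y_lt {K : ℝ} (hD : 1 ≤ D) (hg : 0 < g) {Y0 : ℝ} (h0 : 0 < Y0)
    (h : 2 * Y0 ^ 2 - K * Y0 + 16 * ((D : ℝ) - 1) / g ^ 4 < 0) : 2 * Y0 < K := by
  have hD' : (0 : ℝ) ≤ D - 1 := by
    have : (1 : ℝ) ≤ D := by exact_mod_cast hD
    linarith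
  have h1 : 0 ≤ 16 * ((D : ℝ) - 1) / g ^ 4 := by positivity
  by_contra hc
  push Not at hc
  nlinarith

lemma prt_re {κ : Type} [Fintype κ] {Ψ : (Link D l → G) → κ → ℂ} (h : IsWave ι μ Ψ)
    {c : Link D l → G} {p : ℕ} (hc : ∀ k U, ∑ t ∈ Finset.range p, Ψ (c ^ t * U) k = 0) (k : κ) :
    Pool.Agent.W58.PrT p c (reS μ B h k) := by
  refine YM.ev_ext fun U => ?_
  rw [map_sum, map_zero]
  have h1 := congrArg Complex.re (hc k U)
  rw [Complex.re_sum, Complex.zero_re] at h1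
  exact h1

lemma prt_im {κ : Type} [Fintype κ] {Ψ : (Link D l → G) → κ → ℂ} (h : IsWave ι μ Ψ)
    {c : Link D l → G} {p : ℕ} (hc : ∀ k U, ∑ t ∈ Finset.range p, Ψ (c ^ t * U) k = 0) (k : κ) :
    Pool.Agent.W58.PrT p c (imS μ B h k) := by
  refine YM.ev_ext fun U => ?_
  rw [map_sum, map_zero]
  have h1 := congrArg Complex.im (hc k U)
  rw [Complex.im_sum, Complex.zero_im] at h1
  exact h1

lemma near (hD : 1 ≤ D) (hg : 0 < g) {K : ℝ} (hK : 0 < K)
    (hc : Pool.Agent.W504.YM.Curv (ld B) K) {r : ℝ} (hr : Pool.Agent.W504.YM.Cn (ld B) r)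
    {Y0 : ℝ} (h0 : 0 < Y0) (h1 : 2 * Y0 ^ 2 - K * Y0 + 16 * ((D : ℝ) - 1) / g ^ 4 < 0) :
    Near (ld B) μ D l g (groundEnergy D l B μ g) Y0 := by
  refine near_of (L := ld B) μ hK hc hr hD hg h0 h1 (ground_nonneg μ B g) fun f hf => ?_
  have h2 := ground_le μ B g f hf
  rw [energy_eq] at h2
  exact h2

/-- The energy of arbitrary static charges. -/
lemma charges (hN : 0 < N) (hD : 1 ≤ D) (hg : 0 < g) {K : ℝ} (hK : 0 < K)
    (hgK : 128 * ((D : ℝ) - 1) < g ^ 4 * K ^ 2)
    (hc : Pool.Agent.W504.YM.Curv (ld B) K) {r0 : ℝ} (hr : Pool.Agent.W504.YM.Cn (ld B) r0)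
    (hord : ∀ z : G, (∀ h, z * h = h * z) → ∃ p : ℕ, 0 < p ∧ z ^ p = 1)
    {κ : Type} [Fintype κ] {χ : (Fin D → ZMod l) → Subgroup.center G →* ℂ}
    {Ψ : (Link D l → G) → κ → ℂ} (hΨ : IsWave ι μ Ψ) (hq : HasCharge χ Ψ) (x : Fin D → ZMod l)
    (T : Finset ℕ)
    (hT : ∀ r ∈ T, ∏ s ∈ Finset.univ.filter (fun s => dist1 x s ≤ r), χ s ≠ 1) :
    groundEnergy D l B μ g + tension K D g * T.card ≤ energyV B μ g Ψ := by
  have h1 : ∀ r, ∃ z : Subgroup.center G, r ∈ T →
      (∏ s ∈ Finset.univ.filter (fun s => dist1 x s ≤ r), χ s) z ≠ 1 := by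
    intro r
    by_cases h : r ∈ T
    · obtain ⟨z, hz⟩ := exists_ne_one (hT r h)
      exact ⟨z, fun _ => hz⟩
    · exact ⟨1, fun h' => absurd h' h⟩
  choose z hz using h1
  obtain ⟨p, hp, hp2⟩ := common_exp T (fun r => (z r : G)) fun r _ => hord _ (cen_comm (z r))
  have key : ∀ φ : YM.Sm (ld B) (Link D l),
      (∀ r ∈ T, Pool.Agent.W58.PrT p (zc (z r : G) x r) φ) →
        (groundEnergy D l B μ g + tension K D g * T.card) * (ld B).I μ (φ * φ) ≤
          energy B μ g φ.1 := by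
    intro φ hφ
    refine tension_limit hK hD hg hgK (YM.I_sq_nonneg μ _) (Nat.cast_nonneg _) fun Y0 h0 h1 => ?_
    have h2 := Pool.Agent.W337.SC.Ball.main G μ N n D l (ld B) hN r0 hr p hp K Y0
      (Y_lt hD hg h0 h1) hc g _ (near B hD hg hK hc hr h0 h1) x T (fun r => (z r : G))
      (fun r hr => ⟨cen_comm (z r), hp2 r hr⟩) φ hφ
    rw [energy_eq]
    refine le_trans (le_of_eq ?_) h2
    ring
  have h2 : ∀ r ∈ T, ∀ k U, ∑ t ∈ Finset.range p, Ψ ((zc (z r : G) x r) ^ t * U) k = 0 :=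
    fun r hr k U => prt_of_charge hq (z r) (hp2 r hr) x r (hz r hr) k U
  exact wave_le μ B g hΨ (fun k => key _ fun r hr => prt_re B hΨ (h2 r hr) k)
    (fun k => key _ fun r hr => prt_im B hΨ (h2 r hr) k)

/-- The energy of electric flux. -/
lemma fluxes (hN : 0 < N) (hD : 1 ≤ D) (hg : 0 < g) {K : ℝ} (hK : 0 < K)
    (hgK : 128 * ((D : ℝ) - 1) < g ^ 4 * K ^ 2)
    (hc : Pool.Agent.W504.YM.Curv (ld B) K) {r0 : ℝ} (hr : Pool.Agent.W504.YM.Cn (ld B) r0)
    (hord : ∀ z : G, (∀ h, z * h = h * z) → ∃ p : ℕ, 0 < p ∧ z ^ p = 1)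
    {κ : Type} [Fintype κ] {χ : Fin D → Subgroup.center G →* ℂ}
    {Ψ : (Link D l → G) → κ → ℂ} (hΨ : IsWave ι μ Ψ) (hq : HasFlux χ Ψ)
    (T : Finset (Fin D)) (hT : ∀ i ∈ T, χ i ≠ 1) :
    groundEnergy D l B μ g + tension K D g * (T.card * l) ≤ energyV B μ g Ψ := by
  have h1 : ∀ i, ∃ z : Subgroup.center G, i ∈ T → χ i z ≠ 1 := by
    intro i
    by_cases h : i ∈ T
    · obtain ⟨z, hz⟩ := exists_ne_one (hT i h)
      exact ⟨z, fun _ => hz⟩
    · exact ⟨1, fun h' => absurd h' h⟩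
  choose z hz using h1
  obtain ⟨p, hp, hp2⟩ := common_exp T (fun i => (z i : G)) fun i _ => hord _ (cen_comm (z i))
  have key : ∀ φ : YM.Sm (ld B) (Link D l),
      (∀ i ∈ T, ∀ r, Pool.Agent.W58.PrT p (Pool.Agent.W653.CF.hz (z i : G) i r) φ) →
        (groundEnergy D l B μ g + tension K D g * (T.card * l : ℕ)) * (ld B).I μ (φ * φ) ≤
          energy B μ g φ.1 := by
    intro φ hφ
    refine tension_limit hK hD hg hgK (YM.I_sq_nonneg μ _) (Nat.cast_nonneg _) fun Y0 h0 h1 => ?_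
    have h2 := Pool.Agent.W337.SC.Ball.main2 G μ N n D l (ld B) hN r0 hr p hp K Y0
      (Y_lt hD hg h0 h1) hc g _ (near B hD hg hK hc hr h0 h1) T (fun i => (z i : G))
      (fun i _ => cen_comm (z i)) φ hφ
    rw [energy_eq]
    refine le_trans (le_of_eq ?_) h2
    ring
  have h2 : ∀ i ∈ T, ∀ r : ZMod l, ∀ m U,
      ∑ t ∈ Finset.range p, Ψ ((Pool.Agent.W653.CF.hz (z i : G) i r) ^ t * U) m = 0 :=
    fun i hi r m U => prt_of_flux hq i (z i) (hp2 i hi) (hz i hi) r U m
  have h3 := wave_le μ B g hΨ (fun m => key _ fun i hi r => prt_re B hΨ (h2 i hi r) m)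
    (fun m => key _ fun i hi r => prt_im B hΨ (h2 i hi r) m)
  refine le_trans (le_of_eq ?_) h3
  push_cast
  ring

end strong

end proofs

/-- **Confinement or screening of static charges.** -/
theorem result {N n D : ℕ} (hN : 1 ≤ N) (hD : 1 ≤ D) {G : Type} [Group G] [TopologicalSpace G]
    [IsTopologicalGroup G] [CompactSpace G] [MeasurableSpace G] [BorelSpace G] (μ : Measure G)
    [IsProbabilityMeasure μ] [μ.IsHaarMeasure] (ι : G →* UU N) (hι : Continuous ι)
    (hinj : Function.Injective ι) (B : LieBasis ι n) (g : ℝ) (hg : 0 < g) :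
    (∀ (M : ℕ) (ρ : G →* UU M), 0 < M → Continuous ρ →
      (∀ (l : ℕ) [NeZero l] (x y : Fin D → ZMod l), (pairEnergies B μ g ρ x y).Nonempty ∧
        groundEnergy D l B μ g ≤ potential B μ g ρ x y ∧
        potential B μ g ρ x y ≤
          groundEnergy D l B μ g + g ^ 2 / 2 * casimir B ρ * dist1 x y) ∧
      (2 ≤ D → (∀ z ∈ Subgroup.center G, ρ z = 1) →
        ∃ C : ℝ, ∀ (l : ℕ) [NeZero l] (x y : Fin D → ZMod l),
          potential B μ g ρ x y ≤ groundEnergy D l B μ g + C)) ∧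
    (∀ K : ℝ, 0 < K → ((ConnectedSpace G ∧ Curved B K) ∨
        ((∀ u : UU N, (∃ h, ι h = u) ↔ (u : Mt N).det = 1) ∧ K = N / 2)) →
      128 * ((D : ℝ) - 1) < g ^ 4 * K ^ 2 → ∀ (l : ℕ) [NeZero l],
      (∀ (M : ℕ) (ρ : G →* UU M), 0 < M → Continuous ρ → IsIrred ρ →
        (∃ z ∈ Subgroup.center G, ρ z ≠ 1) → ∀ x y : Fin D → ZMod l,
          groundEnergy D l B μ g + tension K D g * dist1 x y ≤ potential B μ g ρ x y) ∧
      (∀ (κ : Type) [Fintype κ] (χ : (Fin D → ZMod l) → Subgroup.center G →* ℂ)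
        (Ψ : (Link D l → G) → κ → ℂ), IsWave ι μ Ψ → HasCharge χ Ψ →
        ∀ (x : Fin D → ZMod l) (T : Finset ℕ),
          (∀ r ∈ T, ∏ s ∈ Finset.univ.filter (fun s => dist1 x s ≤ r), χ s ≠ 1) →
          groundEnergy D l B μ g + tension K D g * T.card ≤ energyV B μ g Ψ) ∧
      (∀ (κ : Type) [Fintype κ] (χ : Fin D → Subgroup.center G →* ℂ)
        (Ψ : (Link D l → G) → κ → ℂ), IsWave ι μ Ψ → HasFlux χ Ψ →
        ∀ T : Finset (Fin D), (∀ i ∈ T, χ i ≠ 1) →
          groundEnergy D l B μ g + tension K D g * (T.card * l) ≤ energyV B μ g Ψ)) := by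
  have hF : Fact (Continuous ι ∧ Function.Injective ι) := ⟨⟨hι, hinj⟩⟩
  have hsec : SecondCountableTopology G := Pool.Agent.W653.SC.sec_tra hι hinj
  have hright : μ.IsMulRightInvariant := right_inv μ
  refine ⟨fun M ρ hM hρ => ⟨fun l _ x y => bounds μ B g ρ hM hρ x y,
    fun hD2 hcen => screening μ B g ρ hD2 hM hρ hcen⟩, ?_⟩
  intro K hK hGK hgK l _
  obtain ⟨hc, r, hr⟩ : W504.YM.Curv (ld B) K ∧ ∃ r, W504.YM.Cn (ld B) r := by
    rcases hGK with ⟨h1, h2⟩ | ⟨h1, h2⟩
    · exact ⟨Pool.Agent.W653.SC.curv_tra hι hinj (fm B) (W504.YM.curv_of (fm B).fr h2),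
        Pool.Agent.W653.SC.cn_conn_tra hι hinj (fm B)⟩
    · refine ⟨?_, Pool.Agent.W653.SC.cn_su_tra hι hinj (fm B) h1 hN⟩
      rw [h2]
      exact Pool.Agent.W653.SC.curv_su_tra hι hinj (fm B) h1
  have hord : ∀ z : G, (∀ h, z * h = h * z) → ∃ p : ℕ, 0 < p ∧ z ^ p = 1 :=
    fun z hz => Pool.Agent.W653.SC.ord_tra hι hinj (fm B) hK hc z hz
  refine ⟨?_, fun κ _ χ Ψ hΨ hq x T hT => charges B hN hD hg hK hgK hc hr hord hΨ hq x T hT,
    fun κ _ χ Ψ hΨ hq T hT => fluxes B hN hD hg hK hgK hc hr hord hΨ hq T hT⟩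
  intro M ρ hM hρ hirr hz x y
  obtain ⟨w0, hw⟩ := central_char ρ hM hirr
  obtain ⟨z, hzc, hz1⟩ := hz
  have hw1 : w0 ≠ 1 := by
    intro h
    apply hz1
    apply Subtype.ext
    have h2 := hw ⟨z, hzc⟩
    rw [h] at h2
    refine h2.trans ?_
    show (1 : ℂ) • (1 : Mt M) = 1
    rw [one_smul]
  refine le_csInf (bounds μ B g ρ hM hρ x y).1 ?_
  rintro E ⟨Ψ, hΨ, rfl⟩
  have h1 := charges B hN hD hg hK hgK hc hr hord hΨ.wave (pair_charge hw hΨ) x
    (Finset.range (dist1 x y)) (fun r hr => by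
      rw [pair_ball (Finset.mem_range.1 hr)]
      exact hw1)
  rwa [Finset.card_range] at h1

end

end Pool.Agent.Results.MP_7f377f_mp.ConfinementScreening
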