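import Mathlib
import Pool.Agent.H906R3.YM.Conc
import Pool.Agent.W793.YM.Asm

/-!
# Lattice Yang-Mills theory: the correlation length diverges at weak coupling

Wilson's lattice gauge theory on the periodic lattice `(ℤ/l)^d`, `d = D + 1 ≥ 3`, with gauge group a
closed subgroup `G` of `U(N)` of positive dimension: the probability measure on `G ^ links` with
density proportional to `exp (-β ∑_p Re tr (1 - U_p))` with respect to the Haar measure. For all
large `β` there is a local gauge invariant observable `F`, supported in a cube of side at most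
`C β ^ κ` in the time slice `0`, of variance at least `c > 0`, such that the correlation coefficient
of `F` and of its translate by `t` units of time is at least `exp (- C β ^ (-κ) t)` for odd `t`, in all
volumes and in all infinite volume limits, with `κ = 1 / (12 D + 16)`. Hence the mass gap, the
rate of exponential decay of the truncated time correlations, is at most `C β ^ (-κ)`.
-/

open MeasureTheory Matrix Filter
open scoped Matrix.Norms.Frobenius Topology

namespace Pool.Agent.Results.MP_7f377f_mp.CorrelationLength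

set_option linter.unusedSectionVars false

noncomputable section

/-- Complex `N × N` matrices. -/
abbrev Mt (N : ℕ) := Matrix (Fin N) (Fin N) ℂ

/-- The unitary group `U(N)`. -/
abbrev UU (N : ℕ) := Matrix.unitaryGroup (Fin N) ℂ

/-- The matrix of an element of a subgroup of `U(N)`. -/
def mt {N : ℕ} {G : Subgroup (UU N)} (g : G) : Mt N := ((g : UU N) : Mt N)

/-- An orthonormal basis `X` of the Lie algebra of `G`, that is of the real space of all matrices `Y`
with `exp (t Y) ∈ G` for all real `t`, with the scalar product `Re tr (Y* Z)`; `ex a t` is the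
element `exp (t X_a)` of `G`. -/
structure LieBasis {N : ℕ} (G : Subgroup (UU N)) (n : ℕ) where
  X : Fin n → Mt N
  ex : Fin n → ℝ → G
  ex_eq : ∀ a t, mt (ex a t) = NormedSpace.exp (t • X a)
  orth : ∀ a b, (trace ((X a)ᴴ * X b)).re = if a = b then 1 else 0
  full : ∀ Y : Mt N, (∀ t : ℝ, ∃ g : G, mt g = NormedSpace.exp (t • Y)) →
    Y ∈ Submodule.span ℝ (Set.range X)

/-- Links of the periodic lattice `(ℤ/l)^d`: base point and direction. -/
abbrev Link (d l : ℕ) := (Fin d → ZMod l) × Fin d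

/-- Links of the lattice `ℤ^d`: base point and direction. -/
abbrev LinkZ (d : ℕ) := (Fin d → ℤ) × Fin d

section

variable {N n d l D : ℕ} {G : Subgroup (UU N)}

/-- The product of the link variables around the plaquette at `x` in the directions `i`, `j`. -/
def plaq (U : Link d l → G) (x : Fin d → ZMod l) (i j : Fin d) : G :=
  U (x, i) * U (x + Pi.single i 1, j) * (U (x + Pi.single j 1, i))⁻¹ * (U (x, j))⁻¹

/-- The Wilson action `∑_p Re tr (1 - U_p)`, the sum over the plaquettes. -/
def action [NeZero l] (U : Link d l → G) : ℝ :=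
  ∑ x : Fin d → ZMod l, ∑ i : Fin d, ∑ j : Fin d,
    if i < j then (trace (1 - mt (plaq U x i j))).re else 0

/-- The periodic extension of a configuration. -/
def per (U : Link d l → G) : LinkZ d → G := fun e => U (fun i => (e.1 i : ZMod l), e.2)

/-- The expectation of `F` in the lattice Yang-Mills theory on `(ℤ/l)^d`, `μ` being the Haar
measure. -/
def expect (l : ℕ) [NeZero l] [MeasurableSpace G] (μ : Measure G) (β : ℝ)
    (F : (LinkZ d → G) → ℝ) : ℝ :=
  (∫ U : Link d l → G, F (per U) * Real.exp (-(β * action U)) ∂(Measure.pi fun _ => μ)) /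
    ∫ U : Link d l → G, Real.exp (-(β * action U)) ∂(Measure.pi fun _ => μ)

/-- Gauge transformation of the link variables of the infinite lattice. -/
def gauge (γ : (Fin d → ℤ) → G) (V : LinkZ d → G) : LinkZ d → G :=
  fun e => γ e.1 * V e * (γ (e.1 + Pi.single e.2 1))⁻¹

/-- The configuration shifted by `t` units of time; the time is the last coordinate. -/
def shift (t : ℕ) (V : LinkZ (D + 1) → G) : LinkZ (D + 1) → G :=
  fun e => V (e.1 + Pi.single (Fin.last D) (t : ℤ), e.2)

/-- Local observables: continuous gauge invariant functions of the links based in the cube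
`{0, ..., R - 1}^d`. -/
structure IsLocal (R : ℕ) (F : (LinkZ d → G) → ℝ) : Prop where
  cont : Continuous F
  inv : ∀ γ V, F (gauge γ V) = F V
  loc : ∀ V V' : LinkZ d → G, (∀ e : LinkZ d, (∀ i, 0 ≤ e.1 i ∧ e.1 i < R) → V e = V' e) →
    F V = F V'

/-- Observables at time `0`: functions of the spatial links based at points with time
coordinate `0`. -/
def AtTimeZero (F : (LinkZ (D + 1) → G) → ℝ) : Prop :=
  ∀ V V' : LinkZ (D + 1) → G, (∀ e : LinkZ (D + 1), e.1 (Fin.last D) = 0 → e.2 ≠ Fin.last D →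
    V e = V' e) → F V = F V'

/-- The truncated correlation of `F` and its translate by `t` units of time in the volume
`(ℤ/l)^d`. -/
def corr (l : ℕ) [NeZero l] [MeasurableSpace G] (μ : Measure G) (β : ℝ)
    (F : (LinkZ (D + 1) → G) → ℝ) (t : ℕ) : ℝ :=
  expect l μ β (fun V => F V * F (shift t V)) -
    expect l μ β F * expect l μ β (fun V => F (shift t V))

/-- The truncated correlation of `F` and its translate by `t` units of time in the state `ν`. -/
def corrZ [MeasurableSpace G] (ν : Measure (LinkZ (D + 1) → G)) (F : (LinkZ (D + 1) → G) → ℝ)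
    (t : ℕ) : ℝ :=
  ∫ V, F V * F (shift t V) ∂ν - (∫ V, F V ∂ν) * ∫ V, F (shift t V) ∂ν

/-- `ν` is an infinite volume limit of the theories on the tori of even side at inverse coupling
`β`. -/
structure IsInfVol [MeasurableSpace G] (μ : Measure G) (β : ℝ)
    (ν : Measure (LinkZ (D + 1) → G)) : Prop where
  prob : IsProbabilityMeasure ν
  lim : ∃ φ : ℕ → ℕ, Tendsto φ atTop atTop ∧ ∀ (R : ℕ) (F : (LinkZ (D + 1) → G) → ℝ),
    IsLocal R F → Tendsto (fun j => expect (2 * (φ j + 1)) μ β F) atTop (𝓝 (∫ V, F V ∂ν))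

/-- Exponential clustering with the rate `M`, uniform in the volume: for every local observable `F`
at time `0` the truncated correlations are at most `K exp (-M t)` for all times `t ≤ l / 2` in all
large even volumes `l`. -/
def Clusters (D : ℕ) [MeasurableSpace G] (μ : Measure G) (β M : ℝ) : Prop :=
  ∀ (R : ℕ) (F : (LinkZ (D + 1) → G) → ℝ), IsLocal R F → AtTimeZero F →
    ∃ (K : ℝ) (l₀ : ℕ), ∀ (l : ℕ) [NeZero l], Even l → l₀ ≤ l → ∀ t : ℕ, 2 * t ≤ l →
      |corr l μ β F t| ≤ K * Real.exp (-(M * t))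

/-- Exponential clustering of the infinite volume state `ν` with the rate `M`. -/
def ClustersZ [MeasurableSpace G] (ν : Measure (LinkZ (D + 1) → G)) (M : ℝ) : Prop :=
  ∀ (R : ℕ) (F : (LinkZ (D + 1) → G) → ℝ), IsLocal R F → AtTimeZero F →
    ∃ K : ℝ, ∀ t : ℕ, |corrZ ν F t| ≤ K * Real.exp (-(M * t))

end

open Pool.Agent.H906R3 Pool.Agent.W793

variable {N n d l D : ℕ} {G : Subgroup (UU N)}

/-- The same data in the form used by the helper files. -/
def fm (B : LieBasis G n) : YM.Frame G n where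
  X := B.X
  ex := B.ex
  ex_eq := B.ex_eq
  orth := B.orth
  full := B.full

/-- The abstract data. -/
def ld (B : LieBasis G n) : YM.LD G N n := (fm B).toLD

lemma action_eq [NeZero l] (B : LieBasis G n) (U : Link d l → G) :
    action U = YM.act (ld B) U := rfl

/-- A Haar probability measure is invariant under right multiplications. -/
lemma right_inv {H : Type*} [Group H] [TopologicalSpace H] [IsTopologicalGroup H]
    [CompactSpace H] [MeasurableSpace H] [BorelSpace H] (μ : Measure H)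
    [IsProbabilityMeasure μ] [μ.IsHaarMeasure] : μ.IsMulRightInvariant := by
  refine ⟨fun g => ?_⟩
  have h1 : IsProbabilityMeasure (Measure.map (fun x => x * g) μ) :=
    Measure.isProbabilityMeasure_map (measurable_mul_const g).aemeasurable
  exact Measure.isHaarMeasure_eq_of_isProbabilityMeasure _ _

/-- A Haar probability measure is invariant under the inversion. -/
lemma inv_inv' {H : Type*} [Group H] [TopologicalSpace H] [IsTopologicalGroup H]
    [CompactSpace H] [MeasurableSpace H] [BorelSpace H] (μ : Measure H)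
    [IsProbabilityMeasure μ] [μ.IsHaarMeasure] : μ.IsInvInvariant := by
  have hr := right_inv μ
  refine ⟨?_⟩
  have h1 : IsProbabilityMeasure μ.inv :=
    Measure.isProbabilityMeasure_map measurable_inv.aemeasurable
  have h2 : μ.inv.IsMulLeftInvariant := inferInstance
  have h3 : μ.inv.IsHaarMeasure :=
    Measure.isHaarMeasure_of_isCompact_nonempty_interior μ.inv Set.univ isCompact_univ
      (by simp) (by simp) (by simp)
  exact Measure.isHaarMeasure_eq_of_isProbabilityMeasure _ _

section bridge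

variable [CompactSpace G] [SecondCountableTopology G] [MeasurableSpace G] [BorelSpace G]
  (μ : Measure G) [IsProbabilityMeasure μ] [μ.IsHaarMeasure] (B : LieBasis G n)

lemma expect_eq [NeZero l] (β : ℝ) (F : (LinkZ d → G) → ℝ) : expect l μ β F =
    YM.Zt μ (ld B) β (fun U : YM.Ed d l → G => F (YM.lf U)) /
      YM.Zt μ (ld B) β (fun _ : YM.Ed d l → G => 1) := by
  unfold expect YM.Zt
  simp only [one_mul]
  rfl

lemma local_shift {R : ℕ} {F : (LinkZ (D + 1) → G) → ℝ} (hF : IsLocal R F) (t : ℕ) :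
    IsLocal (R + t) fun V => F (shift t V) where
  cont := hF.cont.comp (continuous_pi fun e => continuous_apply _)
  inv γ V := by
    have h1 : shift t (gauge γ V) =
        gauge (fun x => γ (x + Pi.single (Fin.last D) (t : ℤ))) (shift t V) := by
      funext e
      unfold shift gauge
      simp only
      rw [add_right_comm]
    rw [h1, hF.inv]
  loc V V' h := by
    refine hF.loc _ _ fun e he => ?_
    unfold shift
    refine h _ fun i => ?_
    have h1 := he i
    simp only [Pi.add_apply]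
    by_cases hi : i = Fin.last D
    · subst hi
      rw [Pi.single_eq_same]
      push_cast
      constructor <;> linarith [h1.1, h1.2, Int.natCast_nonneg t]
    · rw [Pi.single_eq_of_ne hi, add_zero]
      push_cast
      constructor <;> linarith [h1.1, h1.2, Int.natCast_nonneg t]

lemma local_mul {R : ℕ} {F : (LinkZ (D + 1) → G) → ℝ} (hF : IsLocal R F) (t : ℕ) :
    IsLocal (R + t) fun V => F V * F (shift t V) where
  cont := hF.cont.mul (local_shift hF t).cont
  inv γ V := by rw [hF.inv, (local_shift hF t).inv γ V]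
  loc V V' h := by
    have h1 := (local_shift hF t).loc V V' h
    have h2 : F V = F V' := hF.loc V V' fun e he => h e fun i => ⟨(he i).1, by
      have := (he i).2
      push_cast
      linarith [Int.natCast_nonneg t]⟩
    rw [h1, h2]

/-- comparison of rates -/
lemma rate {c A K M : ℝ} (hc : 0 < c)
    (h : ∀ t : ℕ, Odd t → c * Real.exp (-(A * t)) ≤ K * Real.exp (-(M * t))) : M ≤ A := by
  by_contra hcon
  push Not at hcon
  have hMA : 0 < M - A := by linarith
  obtain ⟨k, hk⟩ := exists_nat_gt (K / c / (M - A))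
  obtain ⟨t, ht⟩ : ∃ t : ℕ, t = 2 * k + 1 := ⟨_, rfl⟩
  have h1 := h t ⟨k, ht⟩
  have h2 : c * Real.exp ((M - A) * t) ≤ K := by
    have h3 : c * Real.exp ((M - A) * t) =
        c * Real.exp (-(A * t)) * Real.exp (M * t) := by
      rw [mul_assoc, ← Real.exp_add]
      congr 2
      ring
    have h4 : K = K * Real.exp (-(M * t)) * Real.exp (M * t) := by
      rw [mul_assoc, ← Real.exp_add]
      simp
    rw [h3, h4]
    exact mul_le_mul_of_nonneg_right h1 (Real.exp_pos _).le
  have h5 : (M - A) * t < Real.exp ((M - A) * t) := by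
    have := Real.add_one_le_exp ((M - A) * t)
    linarith
  have h6 : (k : ℝ) ≤ t := by
    rw [ht]; push_cast
    have : (0 : ℝ) ≤ k := Nat.cast_nonneg k
    linarith
  have h7 : K / c < (M - A) * t := by
    have h8 : K / c / (M - A) < t := lt_of_lt_of_le hk h6
    rw [div_lt_iff₀ hMA] at h8
    linarith
  have h9 : K < (M - A) * t * c := by
    rwa [div_lt_iff₀ hc] at h7
  nlinarith [mul_lt_mul_of_pos_left h5 hc]

include B in
lemma action_cont [NeZero l] : Continuous (action : (Link d l → G) → ℝ) :=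
  YM.act_cont (L := ld B)

include B in
/-- existence of infinite volume limits -/
lemma exists_infVol (β : ℝ) : ∃ ν : Measure (LinkZ (D + 1) → G), IsInfVol μ β ν := by
  have hP : ∀ j : ℕ, ∃ P : ProbabilityMeasure (LinkZ (D + 1) → G),
      ∀ F : (LinkZ (D + 1) → G) → ℝ, Continuous F →
        ∫ V, F V ∂(P : Measure (LinkZ (D + 1) → G)) = expect (2 * (j + 1)) μ β F := by
    intro j
    have hper : Continuous (per : (Link (D + 1) (2 * (j + 1)) → G) → LinkZ (D + 1) → G) :=
      continuous_pi fun e => continuous_apply _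
    have hexp : Continuous fun U : Link (D + 1) (2 * (j + 1)) → G =>
        Real.exp (-(β * action U)) :=
      Real.continuous_exp.comp (continuous_const.mul (action_cont B)).neg
    have hint : Integrable (fun U : Link (D + 1) (2 * (j + 1)) → G =>
        Real.exp (-(β * action U))) (Measure.pi fun _ => μ) :=
      hexp.integrable_of_hasCompactSupport (HasCompactSupport.of_compactSpace _)
    have h1 := isProbabilityMeasure_tilted (f := fun U : Link (D + 1) (2 * (j + 1)) → G =>
      -(β * action U)) hint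
    refine ⟨⟨((Measure.pi fun _ => μ).tilted fun U : Link (D + 1) (2 * (j + 1)) → G =>
      -(β * action U)).map per, Measure.isProbabilityMeasure_map hper.aemeasurable⟩,
      fun F hF => ?_⟩
    show ∫ V, F V ∂(((Measure.pi fun _ => μ).tilted fun U : Link (D + 1) (2 * (j + 1)) → G =>
      -(β * action U)).map per) = _
    rw [integral_map hper.aemeasurable hF.aestronglyMeasurable, integral_tilted]
    unfold expect
    rw [← integral_div]
    refine integral_congr_ae (Filter.Eventually.of_forall fun U => ?_)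
    simp only [smul_eq_mul]
    ring
  choose P hP using hP
  obtain ⟨ν, φ, hφ, hlim⟩ := CompactSpace.tendsto_subseq P
  refine ⟨ν, ⟨inferInstance, φ, hφ.tendsto_atTop, fun R F hF => ?_⟩⟩
  have h1 := (ProbabilityMeasure.tendsto_iff_forall_integral_tendsto.1 hlim)
    (BoundedContinuousFunction.mkOfCompact ⟨F, hF.cont⟩)
  simp only [Function.comp_apply, BoundedContinuousFunction.mkOfCompact_apply,
    ContinuousMap.coe_mk] at h1
  simpa only [hP _ F hF.cont] using h1

include B in
theorem finite_part (hn : 1 ≤ n) (e : ℕ) : ∃ C c β₀ : ℝ, 0 < C ∧ 0 < c ∧ 1 ≤ β₀ ∧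
    ∀ β : ℝ, β₀ ≤ β → ∃ (R : ℕ) (F : (LinkZ (e + 2 + 1) → G) → ℝ),
      (R : ℝ) ≤ C * β ^ (1 / (4 * (3 * e + 10 : ℕ) : ℝ)) ∧ IsLocal R F ∧ AtTimeZero F ∧
      ∀ (l : ℕ) [NeZero l], Even l → R < l → c ≤ corr l μ β F 0 ∧ ∀ t : ℕ, Odd t → t < l →
        Real.exp (-(C * β ^ (-(1 / (4 * (3 * e + 10 : ℕ) : ℝ))) * t)) * corr l μ β F 0 ≤
          corr l μ β F t := by
  have := right_inv μ
  have := inv_inv' μ
  obtain ⟨C2, C4, c1, hC2, hC4, hc1, htr⟩ := YM.trunc μ (ld B) hn e
  obtain ⟨β₀, C5, hβ₀, hC5, hsc⟩ := YM.scale hC2 hC4 (P := 3 * e + 10) (by omega)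
  refine ⟨9 * C5, c1, β₀, by positivity, hc1, hβ₀, fun β hβ => ?_⟩
  have hβ1 : 1 ≤ β := hβ₀.trans hβ
  have hβ0 : 0 < β := by linarith
  obtain ⟨q, hq1, hq2, hq3, hq4, hq5⟩ := hsc β hβ
  obtain ⟨κ, hκ⟩ : ∃ κ : ℝ, κ = 1 / (4 * (3 * e + 10 : ℕ) : ℝ) := ⟨_, rfl⟩
  rw [← hκ] at hq4 hq5 ⊢
  obtain ⟨b, hb⟩ : ∃ b : ℝ, b = β ^ (1 / 4 : ℝ) := ⟨_, rfl⟩
  have hb4 : b ^ 4 = β := by
    rw [hb, ← Real.rpow_natCast, ← Real.rpow_mul hβ0.le]
    norm_num
  rw [← hb] at hq3
  obtain ⟨F, hF⟩ : ∃ F : (LinkZ (e + 2 + 1) → G) → ℝ,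
    F = YM.FZ (ld B) (b ^ 2 / Real.sqrt ((q : ℝ) ^ (3 * e + 5))) (4 * q) 0 (Fin.last _) 1 0 :=
    ⟨_, rfl⟩
  have h10 : (1 : Fin (e + 2 + 1)) ≠ Fin.last (e + 2) := by
    intro h
    have := congrArg Fin.val h
    simp at this
  have h00 : (0 : Fin (e + 2 + 1)) ≠ Fin.last (e + 2) := by
    intro h
    have := congrArg Fin.val h
    simp at this
  have hFloc : IsLocal (8 * q + 1) F := by
    refine ⟨?_, fun γ V => ?_, fun V V' h => ?_⟩
    · rw [hF]; exact YM.FZ_cont (by omega) _ _ _ _ _
    · rw [hF]; exact YM.FZ_gz (by omega) _ _ _ _ _ γ V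
    · rw [hF]
      refine YM.FZ_congr (fun e he => h e fun i => ?_) _ _ _ _ _
      have h8 : 2 * (4 * q) + 1 = 8 * q + 1 := by ring
      rw [h8] at he
      exact he i
  have hF0 : AtTimeZero F := fun V V' h => by
    rw [hF]
    exact YM.FZ_time (by omega) h _ _ h10 h00
  refine ⟨8 * q + 1, F, ?_, hFloc, hF0, ?_⟩
  · push_cast
    have : (1 : ℝ) ≤ q := by exact_mod_cast hq1
    linarith
  · intro l _ hl hRl
    obtain ⟨m, rfl⟩ := even_iff_two_dvd.1 hl
    haveI hm0 : NeZero m := ⟨by rintro rfl; omega⟩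
    obtain ⟨h0, h1⟩ := htr q hq1 hq2 b hq3 m (by omega)
    rw [hb4] at h0 h1
    have hFO : ∀ U : YM.Ed (e + 2 + 1) (2 * m) → G, F (YM.lf U) = (YM.Obs (ld B) b q).1 U :=
      fun U => by
        rw [hF]
        exact YM.FZ_lf (by omega) (by omega) _ _ _ _ _ U
    have hsh : ∀ (t : ℕ) (U : YM.Ed (e + 2 + 1) (2 * m) → G), F (shift t (YM.lf U)) =
        (YM.Obs (ld B) b q).1 (YM.tr (YM.sv (Fin.last (e + 2)) (t : ZMod (2 * m))) U) := by
      intro t U
      rw [← hFO]
      exact congrArg F (YM.tz_lf (Fin.last (e + 2)) t U)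
    have h2 : ∀ t : ℕ, corr (2 * m) μ β F t =
        YM.Zt μ (ld B) β (fun U : YM.Ed (e + 3) (2 * m) → G => (YM.Obs (ld B) b q).1 U *
          (YM.Obs (ld B) b q).1 (YM.tr (YM.sv (Fin.last (e + 2)) (t : ZMod (2 * m))) U)) /
          YM.Zt μ (ld B) β (fun _ : YM.Ed (e + 3) (2 * m) → G => 1) -
        (YM.Zt μ (ld B) β (fun U : YM.Ed (e + 3) (2 * m) → G => (YM.Obs (ld B) b q).1 U) /
          YM.Zt μ (ld B) β (fun _ : YM.Ed (e + 3) (2 * m) → G => 1)) ^ 2 := by
      intro t
      unfold corr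
      rw [expect_eq μ B, expect_eq μ B, expect_eq μ B]
      simp only [hFO, hsh]
      rw [YM.Zt_tr μ β _ (YM.Obs (ld B) b q).1, pow_two]
    have h3 : corr (2 * m) μ β F 0 =
        YM.Zt μ (ld B) β (fun U : YM.Ed (e + 3) (2 * m) → G => (YM.Obs (ld B) b q).1 U *
          (YM.Obs (ld B) b q).1 U) /
          YM.Zt μ (ld B) β (fun _ : YM.Ed (e + 3) (2 * m) → G => 1) -
        (YM.Zt μ (ld B) β (fun U : YM.Ed (e + 3) (2 * m) → G => (YM.Obs (ld B) b q).1 U) /
          YM.Zt μ (ld B) β (fun _ : YM.Ed (e + 3) (2 * m) → G => 1)) ^ 2 := by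
      have hs0 : YM.sv (Fin.last (e + 2)) ((0 : ℕ) : ZMod (2 * m)) = 0 := by
        rw [Nat.cast_zero]
        exact Pi.single_zero _
      rw [h2, hs0]
      simp only [YM.tr_zero]
    rw [← h3] at h0 h1
    refine ⟨h0, fun t ht htl => ?_⟩
    obtain ⟨k', hk'⟩ := ht
    obtain ⟨k, hk⟩ : ∃ k, k = k' + 1 := ⟨_, rfl⟩
    have hkt : t = 2 * k - 1 := by omega
    have h4 := h1 k (by omega) (by omega)
    rw [← hkt, ← h2] at h4
    refine le_trans (mul_le_mul_of_nonneg_right (Real.exp_le_exp.2 (neg_le_neg ?_))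
      (hc1.le.trans h0)) h4
    have h3 : (k : ℝ) ≤ t := by
      have : k ≤ t := by omega
      exact_mod_cast this
    have h4 : 0 ≤ C4 / q := by positivity
    have h5 : (0 : ℝ) ≤ t := Nat.cast_nonneg t
    calc C4 / q * k ≤ C4 / q * t := mul_le_mul_of_nonneg_left h3 h4
      _ ≤ 9 * C5 * β ^ (-κ) * t := by
          refine mul_le_mul_of_nonneg_right (hq5.trans ?_) h5
          have : 0 ≤ C5 * β ^ (-κ) := by positivity
          linarith

end bridge

theorem result {N n D : ℕ} (G : Subgroup (UU N)) (hG : IsClosed (G : Set (UU N)))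
    [MeasurableSpace G] [BorelSpace G] (μ : Measure G) [IsProbabilityMeasure μ] [μ.IsHaarMeasure]
    (B : LieBasis G n) (hn : 1 ≤ n) (hD : 2 ≤ D) :
    ∃ C c β₀ : ℝ, 0 < C ∧ 0 < c ∧ 0 < β₀ ∧ ∀ β : ℝ, β₀ ≤ β →
      (∃ (R : ℕ) (F : (LinkZ (D + 1) → G) → ℝ), (R : ℝ) ≤ C * β ^ (1 / (12 * D + 16 : ℝ)) ∧
        IsLocal R F ∧ AtTimeZero F ∧
        (∀ (l : ℕ) [NeZero l], Even l → R < l → c ≤ corr l μ β F 0 ∧ ∀ t : ℕ, Odd t → t < l →
          Real.exp (-(C * β ^ (-(1 / (12 * D + 16 : ℝ))) * t)) * corr l μ β F 0 ≤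
            corr l μ β F t) ∧
        ∀ ν : Measure (LinkZ (D + 1) → G), IsInfVol μ β ν → c ≤ corrZ ν F 0 ∧
          ∀ t : ℕ, Odd t → Real.exp (-(C * β ^ (-(1 / (12 * D + 16 : ℝ))) * t)) * corrZ ν F 0 ≤
            corrZ ν F t) ∧
      (∀ M : ℝ, Clusters D μ β M → M ≤ C * β ^ (-(1 / (12 * D + 16 : ℝ)))) ∧
      (∀ ν : Measure (LinkZ (D + 1) → G), IsInfVol μ β ν → ∀ M : ℝ, ClustersZ ν M →
        M ≤ C * β ^ (-(1 / (12 * D + 16 : ℝ)))) ∧
      ∃ ν : Measure (LinkZ (D + 1) → G), IsInfVol μ β ν := by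
  have : CompactSpace G := by
    have h1 : IsCompact (G : Set (UU N)) := hG.isCompact
    exact isCompact_iff_compactSpace.1 h1
  have h00 : SecondCountableTopology (UU N) := TopologicalSpace.Subtype.secondCountableTopology _
  have : SecondCountableTopology G := TopologicalSpace.Subtype.secondCountableTopology _
  obtain ⟨e, rfl⟩ : ∃ e, D = e + 2 := ⟨D - 2, by omega⟩
  obtain ⟨C, c, β₀, hC, hc, hβ₀, hmain⟩ := finite_part μ B hn e
  have hκ : (4 * (3 * e + 10 : ℕ) : ℝ) = 12 * ((e + 2 : ℕ) : ℝ) + 16 := by push_cast; ring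
  rw [hκ] at hmain
  refine ⟨C, c, β₀, hC, hc, by linarith, fun β hβ => ?_⟩
  obtain ⟨R, F, hR, hF, hF0, hcorr⟩ := hmain β hβ
  obtain ⟨A, hA⟩ : ∃ A : ℝ, A = C * β ^ (-(1 / (12 * ((e + 2 : ℕ) : ℝ) + 16))) := ⟨_, rfl⟩
  rw [← hA] at hcorr ⊢
  have hcorr' : ∀ (l : ℕ) [NeZero l], Even l → R < l → ∀ t : ℕ, Odd t → t < l →
      c * Real.exp (-(A * t)) ≤ corr l μ β F t := by
    intro l _ hl hRl t ht htl
    obtain ⟨h1, h2⟩ := hcorr l hl hRl
    rw [mul_comm]
    exact (mul_le_mul_of_nonneg_left h1 (Real.exp_pos _).le).trans (h2 t ht htl)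
  have hinf : ∀ ν : Measure (LinkZ (e + 2 + 1) → G), IsInfVol μ β ν → c ≤ corrZ ν F 0 ∧
      ∀ t : ℕ, Odd t → Real.exp (-(A * t)) * corrZ ν F 0 ≤ corrZ ν F t := by
    intro ν hν
    obtain ⟨φ, hφ, hlim⟩ := hν.lim
    have h1 : ∀ t, Tendsto (fun j => corr (2 * (φ j + 1)) μ β F t) atTop (𝓝 (corrZ ν F t)) :=
      fun t => (hlim _ _ (local_mul hF t)).sub
        ((hlim _ _ hF).mul (hlim _ _ (local_shift hF t)))
    refine ⟨ge_of_tendsto (h1 0) ?_, fun t ht =>
      le_of_tendsto_of_tendsto ((h1 0).const_mul _) (h1 t) ?_⟩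
    · filter_upwards [hφ.eventually_ge_atTop R] with j hj
      exact (hcorr (2 * (φ j + 1)) (even_two_mul _) (by omega)).1
    · filter_upwards [hφ.eventually_ge_atTop (R + t)] with j hj
      exact (hcorr (2 * (φ j + 1)) (even_two_mul _) (by omega)).2 t ht (by omega)
  refine ⟨⟨R, F, hR, hF, hF0, hcorr, hinf⟩, fun M hM => ?_, fun ν hν M hM => ?_,
    exists_infVol μ B β⟩
  · obtain ⟨K, l₀, hK⟩ := hM R F hF hF0
    refine rate (K := K) hc fun t ht => ?_
    obtain ⟨l, hl⟩ : ∃ l, l = 2 * (l₀ + R + t + 1) := ⟨_, rfl⟩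
    haveI : NeZero l := ⟨by omega⟩
    have h1 : Even l := by rw [hl]; exact even_two_mul _
    exact (hcorr' l h1 (by omega) t ht (by omega)).trans
      ((le_abs_self _).trans (hK l h1 (by omega) t (by omega)))
  · obtain ⟨K, hK⟩ := hM R F hF hF0
    obtain ⟨h1, h2⟩ := hinf ν hν
    refine rate (K := K) hc fun t ht => ?_
    rw [mul_comm]
    exact ((mul_le_mul_of_nonneg_left h1 (Real.exp_pos _).le).trans (h2 t ht)).trans
      ((le_abs_self _).trans (hK t))

end

end Pool.Agent.Results.MP_7f377f_mp.CorrelationLength
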