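import Mathlib
import Pool.Agent.W504.YT.T13

/-!
# Hamiltonian lattice Yang-Mills theory in infinite volume: vacuum, Hamiltonian and mass gap

The link variables are elements of a closed subgroup `G` of `U(N)`; the definitions are given for a
group `G` and a map `i` from `G` to the `N × N` matrices, which is the inclusion `mat` in the
theorem.
-/

open MeasureTheory Matrix
open scoped ContDiff Matrix.Norms.Frobenius

namespace Pool.Agent.Results.MP_7f377f_mp.InfiniteVolumeGap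

set_option linter.unusedSectionVars false

noncomputable section

/-- Complex `N × N` matrices. -/
abbrev Mt (N : ℕ) := Matrix (Fin N) (Fin N) ℂ

/-- Links of the periodic lattice `(ℤ/l)^D`: base point and direction. -/
abbrev Link (D l : ℕ) := (Fin D → ZMod l) × Fin D

/-- Links of the lattice `ℤ^D`. -/
abbrev LinkZ (D : ℕ) := (Fin D → ℤ) × Fin D

/-- Unit vector of the lattice in direction `k`. -/
def unitv {D l : ℕ} (k : Fin D) : Fin D → ZMod l := Pi.single k 1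

/-- An orthonormal basis `X` of the Lie algebra of `G`, that is of the real space of all matrices `Y`
with `exp (t Y) ∈ i(G)` for all real `t`, with the scalar product `Re tr (Y* Z)`; `ex a t` is the
element of `G` with the matrix `exp (t X_a)`. -/
structure LieBasis {N : ℕ} {G : Type} (i : G → Mt N) (n : ℕ) where
  X : Fin n → Mt N
  ex : Fin n → ℝ → G
  ex_eq : ∀ a t, i (ex a t) = NormedSpace.exp (t • X a)
  orth : ∀ a b, (trace ((X a)ᴴ * X b)).re = if a = b then 1 else 0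
  full : ∀ Y : Mt N, (∀ t : ℝ, ∃ h : G, i h = NormedSpace.exp (t • Y)) →
    Y ∈ Submodule.span ℝ (Set.range X)

/-- `K + √(K ^ 2 - 128 (D - 1) exp a / g ^ 4)` -/
def rate (D : ℕ) (g K a : ℝ) : ℝ :=
  K + Real.sqrt (K ^ 2 - 128 * ((D : ℝ) - 1) * Real.exp a / g ^ 4)

section operator

variable {X : Type} [MeasurableSpace X]

/-- The domain of `H` contains the functions `F`, `F'` of the set `L`, and `⟨F', H F⟩ = q F F'`. -/
structure HasElements (ν : Measure X) (L : Set (X → ℝ)) (q : (X → ℝ) → (X → ℝ) → ℝ)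
    (H : Lp ℝ 2 ν →ₗ.[ℝ] Lp ℝ 2 ν) : Prop where
  elements : ∀ F ∈ L, ∀ F' ∈ L, ∀ (hF : MemLp F 2 ν) (hF' : MemLp F' 2 ν),
    ∃ h : hF.toLp F ∈ H.domain, inner ℝ (hF'.toLp F') (H ⟨hF.toLp F, h⟩) = q F F'

/-- The set `L` is dense in the domain of `H`, in the norm and with the values of the form `q`. -/
structure HasCore (ν : Measure X) (L : Set (X → ℝ)) (q : (X → ℝ) → (X → ℝ) → ℝ)
    (H : Lp ℝ 2 ν →ₗ.[ℝ] Lp ℝ 2 ν) : Prop where
  core : ∀ (u : H.domain) (ε : ℝ), 0 < ε → ∃ F ∈ L, ∃ hF : MemLp F 2 ν,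
    ‖(u : Lp ℝ 2 ν) - hF.toLp F‖ ≤ ε ∧ |inner ℝ (u : Lp ℝ 2 ν) (H u) - q F F| ≤ ε

/-- The kernel of `H` consists of the constants. -/
structure KerConst (ν : Measure X) (H : Lp ℝ 2 ν →ₗ.[ℝ] Lp ℝ 2 ν) : Prop where
  ker : ∀ u : H.domain, H u = 0 ↔ ∃ c : ℝ, ∀ᵐ U ∂ν, (u : Lp ℝ 2 ν) U = c

/-- `⟨u, H u⟩ ≥ Δ (‖u‖ ^ 2 - ⟨1, u⟩ ^ 2)`: the gap of `H` above the constants is at least `Δ`. -/
structure HasGap (ν : Measure X) (Δ : ℝ) (H : Lp ℝ 2 ν →ₗ.[ℝ] Lp ℝ 2 ν) : Prop where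
  gap : ∀ u : H.domain, Δ * (‖(u : Lp ℝ 2 ν)‖ ^ 2 - (∫ U, (u : Lp ℝ 2 ν) U ∂ν) ^ 2) ≤
    inner ℝ (u : Lp ℝ 2 ν) (H u)

/-- There is a self-adjoint operator `H` on `L²(ν)`, the Friedrichs extension of the form `q` on `L`,
with kernel the constants and gap `Δ`: the spectrum of `H` is contained in `{0} ∪ [Δ, ∞)`. -/
structure HasHamiltonian (ν : Measure X) (L : Set (X → ℝ)) (q : (X → ℝ) → (X → ℝ) → ℝ)
    (Δ : ℝ) : Prop where
  ham : ∃ H : Lp ℝ 2 ν →ₗ.[ℝ] Lp ℝ 2 ν, IsSelfAdjoint H ∧ HasElements ν L q H ∧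
    HasCore ν L q H ∧ KerConst ν H ∧ HasGap ν Δ H

end operator

section

variable {N n D l : ℕ} {G : Type} [Group G] {i : G → Mt N}

/-- The product of the link variables around the plaquette at `x` in the directions `j`, `k`. -/
def plaq (U : Link D l → G) (x : Fin D → ZMod l) (j k : Fin D) : G :=
  U (x, j) * U (x + unitv j, k) * (U (x + unitv k, j))⁻¹ * (U (x, k))⁻¹

/-- The magnetic energy `∑_p Re tr (1 - U_p)`, the sum over the plaquettes. -/
def magnetic [NeZero l] (i : G → Mt N) (U : Link D l → G) : ℝ :=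
  ∑ x : Fin D → ZMod l, ∑ j : Fin D, ∑ k : Fin D,
    if j < k then (trace (1 - i (plaq U x j k))).re else 0

/-- Smooth functions of the link variables: restrictions of smooth functions of the matrices. -/
def IsSmooth [NeZero l] (i : G → Mt N) (F : (Link D l → G) → ℝ) : Prop :=
  ∃ f : (Link D l → Mt N) → ℝ, ContDiff ℝ ∞ f ∧ ∀ U, F U = f fun e => i (U e)

/-- The derivative of `F` at `U` when the variable of the link `e` moves as `exp (t X_a) U_e`. -/
def dlink {E : Type} [DecidableEq E] (B : LieBasis i n) (e : E) (a : Fin n)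
    (F : (E → G) → ℝ) (U : E → G) : ℝ :=
  deriv (fun t => F (Function.update U e (B.ex a t * U e))) 0

/-- The energy `⟨F, H F⟩` of a smooth function `F`, as a quadratic form, `μ` being the Haar measure:
`(g ^ 2 / 2) ∑_{e, a} ∫ (D_{e, a} F) ^ 2 + g ^ (-2) ∫ (∑_p Re tr (1 - U_p)) F ^ 2`. -/
def energy [NeZero l] [MeasurableSpace G] (B : LieBasis i n) (μ : Measure G) (g : ℝ)
    (F : (Link D l → G) → ℝ) : ℝ :=
  g ^ 2 / 2 * (∑ e : Link D l, ∑ a : Fin n,
    ∫ U, (dlink B e a F U) ^ 2 ∂(Measure.pi fun _ : Link D l => μ)) +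
  1 / g ^ 2 * ∫ U, magnetic i U * F U ^ 2 ∂(Measure.pi fun _ : Link D l => μ)

/-- Gauge transformation of the link variables. -/
def gauge (γ : (Fin D → ZMod l) → G) (U : Link D l → G) : Link D l → G :=
  fun e => γ e.1 * U e * (γ (e.1 + unitv e.2))⁻¹

/-- The ground state energy: the infimum of the energies of the smooth gauge invariant functions `Ψ`
with `∫ Ψ ^ 2 = 1`. -/
def groundEnergy (D l : ℕ) [NeZero l] [MeasurableSpace G] (B : LieBasis i n) (μ : Measure G)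
    (g : ℝ) : ℝ :=
  sInf {E : ℝ | ∃ Ψ : (Link D l → G) → ℝ, IsSmooth i Ψ ∧ (∀ γ U, Ψ (gauge γ U) = Ψ U) ∧
    ∫ U, Ψ U ^ 2 ∂(Measure.pi fun _ : Link D l => μ) = 1 ∧ energy B μ g Ψ = E}

/-- `K` is a lower bound of the Ricci curvature of the bi-invariant metric of `G` given by
`Re tr (Y* Z)`: as `Ric (Y, Y) = (1 / 4) ∑_a ‖[X_a, Y]‖ ^ 2`, this is
`4 K ‖Y‖ ^ 2 ≤ ∑_a ‖[X_a, Y]‖ ^ 2` for all `Y` in the Lie algebra, with `‖Z‖ ^ 2 = Re tr (Z* Z)`. -/
def Curved (B : LieBasis i n) (K : ℝ) : Prop :=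
  ∀ Y ∈ Submodule.span ℝ (Set.range B.X), 4 * K * (trace (Yᴴ * Y)).re ≤
    ∑ a, (trace ((B.X a * Y - Y * B.X a)ᴴ * (B.X a * Y - Y * B.X a))).re

/-- `groundEnergy` is the infimum of the energy over all smooth functions, gauge invariant or not,
of the periodic lattice of size `l`, and the gap above it is at least `Δ`: whenever all unit vectors
of the plane spanned by two orthonormal smooth functions have energy at most `E`, then
`E ≥ E₀ + Δ`. -/
structure TorusGap (D : ℕ) (B : LieBasis i n) [MeasurableSpace G] (μ : Measure G) (g Δ : ℝ) (l : ℕ)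
    [NeZero l] : Prop where
  ground : ∀ F : (Link D l → G) → ℝ, IsSmooth i F →
    groundEnergy D l B μ g * ∫ U, F U ^ 2 ∂(Measure.pi fun _ : Link D l => μ) ≤ energy B μ g F
  gap : ∀ Ψ Φ : (Link D l → G) → ℝ, IsSmooth i Ψ → IsSmooth i Φ →
    ∫ U, Ψ U ^ 2 ∂(Measure.pi fun _ : Link D l => μ) = 1 →
    ∫ U, Φ U ^ 2 ∂(Measure.pi fun _ : Link D l => μ) = 1 →
    ∫ U, Ψ U * Φ U ∂(Measure.pi fun _ : Link D l => μ) = 0 →
    ∀ E : ℝ, (∀ a b : ℝ, a ^ 2 + b ^ 2 = 1 →
      energy B μ g (fun U => a * Ψ U + b * Φ U) ≤ E) → groundEnergy D l B μ g + Δ ≤ E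

/-- Low energy functions on the periodic lattice of size `l`: smooth, normalized, energy at most
`E₀ + δ`. -/
structure Low (B : LieBasis i n) [MeasurableSpace G] (μ : Measure G) (g : ℝ) (l : ℕ) [NeZero l]
    (δ : ℝ) (Ψ : (Link D l → G) → ℝ) : Prop where
  smooth : IsSmooth i Ψ
  norm : ∫ U, Ψ U ^ 2 ∂(Measure.pi fun _ : Link D l => μ) = 1
  low : energy B μ g Ψ ≤ groundEnergy D l B μ g + δ

/-! ### infinite volume -/

/-- The configuration on `ℤ^D`, with period `l` in all directions, given by a configuration on the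
periodic lattice. -/
def per (U : Link D l → G) : LinkZ D → G := fun e => U (fun k => (e.1 k : ZMod l), e.2)

/-- Local observables: smooth functions of the variables of the links in the finite set `Λ`. -/
def IsLocal (i : G → Mt N) (Λ : Finset (LinkZ D)) (F : (LinkZ D → G) → ℝ) : Prop :=
  ∃ f : (Λ → Mt N) → ℝ, ContDiff ℝ ∞ f ∧ ∀ U, F U = f fun e => i (U e)

/-- The square of the gradient of a function of the variables of the links in `Λ`. -/
def gradSq (B : LieBasis i n) (Λ : Finset (LinkZ D)) (F : (LinkZ D → G) → ℝ)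
    (U : LinkZ D → G) : ℝ :=
  ∑ e ∈ Λ, ∑ a, (dlink B e a F U) ^ 2

/-- Distance of the base points of two links, in the maximum norm. -/
def dis (e e' : LinkZ D) : ℕ := Finset.univ.sup fun k => (e.1 k - e'.1 k).natAbs

/-- Translation of a configuration. -/
def transl (y : Fin D → ℤ) (U : LinkZ D → G) : LinkZ D → G := fun e => U (e.1 + y, e.2)

/-- Gauge transformation of a configuration on `ℤ^D`. -/
def gaugeZ (γ : (Fin D → ℤ) → G) (U : LinkZ D → G) : LinkZ D → G :=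
  fun e => γ e.1 * U e * (γ (e.1 + Pi.single e.2 1))⁻¹

variable [MeasurableSpace G]

/-- The energy form `(g ^ 2 / 2) ∫ ∇ F · ∇ F' dν` of local observables `F`, `F'`. -/
def form (B : LieBasis i n) (g : ℝ) (ν : Measure (LinkZ D → G)) (F F' : (LinkZ D → G) → ℝ) : ℝ :=
  g ^ 2 / 2 * ∑ᶠ e : LinkZ D, ∑ a, ∫ U, dlink B e a F U * dlink B e a F' U ∂ν

/-- `ν` is the limit of the ground states of the periodic lattices: for local observables `F` in the
box of size `m`, with gradient bounded by `c` and values by `M`, the expectations in every function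
`Ψ` of energy at most `E₀ + δ` on the lattice of size `l` differ from those in `ν` by at most
`C c exp (-a l) + 4 M √(δ / Δ)`. -/
structure IsLimit (B : LieBasis i n) (μ : Measure G) (g Δ : ℝ) (ν : Measure (LinkZ D → G)) :
    Prop where
  prob : IsProbabilityMeasure ν
  lim : ∀ m : ℕ, ∃ (C a : ℝ) (l₀ : ℕ), 0 < a ∧ ∀ (Λ : Finset (LinkZ D))
    (F : (LinkZ D → G) → ℝ) (c M : ℝ), (∀ e ∈ Λ, ∀ k, |e.1 k| ≤ m) → IsLocal i Λ F → 0 ≤ c →
    (∀ U, gradSq B Λ F U ≤ c ^ 2) → (∀ U, |F U| ≤ M) →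
    ∀ (l : ℕ) [NeZero l], l₀ ≤ l → ∀ (δ : ℝ) (Ψ : (Link D l → G) → ℝ),
    0 ≤ δ → Low B μ g l δ Ψ →
    |∫ U, F (per U) * Ψ U ^ 2 ∂(Measure.pi fun _ : Link D l => μ) - ∫ U, F U ∂ν| ≤
      C * c * Real.exp (-(a * l)) + 4 * M * Real.sqrt (δ / Δ)

/-- The energies of the excitations `F Ψ`, with `F` a local observable and `Ψ` of low energy on a
large periodic lattice, converge: `⟨F Ψ, (H - E₀) F Ψ⟩` tends to `(g ^ 2 / 2) ∫ |∇ F| ^ 2 dν`. -/
structure EnergyLimit (B : LieBasis i n) (μ : Measure G) (g : ℝ) (ν : Measure (LinkZ D → G)) :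
    Prop where
  lim : ∀ (Λ : Finset (LinkZ D)) (F : (LinkZ D → G) → ℝ), IsLocal i Λ F → ∀ ε : ℝ, 0 < ε →
    ∃ l₀ : ℕ, ∀ (l : ℕ) [NeZero l], l₀ ≤ l → ∃ δ : ℝ, 0 < δ ∧ ∀ Ψ : (Link D l → G) → ℝ,
      Low B μ g l δ Ψ →
      |energy B μ g (fun U => F (per U) * Ψ U) - groundEnergy D l B μ g *
        ∫ U, (F (per U) * Ψ U) ^ 2 ∂(Measure.pi fun _ : Link D l => μ) - form B g ν F F| ≤ ε

/-- Exponential decay of the covariances, with rate `a`: local observables at distance at least `R`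
with gradients bounded by `c`, `c'` have covariance at most `κ c c' exp (-a R)`. -/
structure Clustering (B : LieBasis i n) (κ a : ℝ) (ν : Measure (LinkZ D → G)) : Prop where
  cov : ∀ (Λ Λ' : Finset (LinkZ D)) (F F' : (LinkZ D → G) → ℝ) (c c' : ℝ) (R : ℕ),
    IsLocal i Λ F → IsLocal i Λ' F' → 0 ≤ c → 0 ≤ c' → (∀ U, gradSq B Λ F U ≤ c ^ 2) →
    (∀ U, gradSq B Λ' F' U ≤ c' ^ 2) → (∀ e ∈ Λ, ∀ e' ∈ Λ', R ≤ dis e e') →
    |∫ U, F U * F' U ∂ν - (∫ U, F U ∂ν) * ∫ U, F' U ∂ν| ≤ κ * c * c' * Real.exp (-(a * R))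

/-- The theory in infinite volume: `ν`, the only limit of the ground states of the periodic lattices,
has a Hamiltonian of gap `Δ = (g ^ 2 / 4) rate 0`, the energies of the local excitations of the
periodic lattices converge to those of `ν`, and `ν` has exponential clustering and is invariant under
gauge transformations and translations. -/
structure IsVacuum (B : LieBasis i n) (μ : Measure G) (g K : ℝ) (ν : Measure (LinkZ D → G)) :
    Prop where
  lim : IsLimit B μ g (g ^ 2 / 4 * rate D g K 0) ν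
  unique : ∀ ν' : Measure (LinkZ D → G), IsLimit B μ g (g ^ 2 / 4 * rate D g K 0) ν' → ν' = ν
  ham : HasHamiltonian ν {F | ∃ Λ, IsLocal i Λ F} (form B g ν) (g ^ 2 / 4 * rate D g K 0)
  energies : EnergyLimit B μ g ν
  clustering : ∀ a : ℝ, 0 ≤ a → 128 * ((D : ℝ) - 1) * Real.exp a < g ^ 4 * K ^ 2 →
    Clustering B (2 / rate D g K a) a ν
  gaugeInv : ∀ γ : (Fin D → ℤ) → G, ν.map (gaugeZ γ) = ν
  translInv : ∀ y : Fin D → ℤ, ν.map (transl y) = ν

end

/-- The matrix of an element of a subgroup of `U(N)`. -/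
def mat {N : ℕ} {G : Subgroup (Matrix.unitaryGroup (Fin N) ℂ)} (h : G) : Mt N :=
  ((h : Matrix.unitaryGroup (Fin N) ℂ) : Mt N)

section bridge

variable {N n D : ℕ} {G : Subgroup (Matrix.unitaryGroup (Fin N) ℂ)} [MeasurableSpace G]

/-- The same data in the form used by the helper files. -/
def ob (B : LieBasis (mat (G := G)) n) : Pool.Agent.YMI.LieBasis G n :=
  ⟨B.X, B.ex, B.ex_eq, B.orth, B.full⟩

lemma ge_old (B : LieBasis (mat (G := G)) n) (μ : Measure G) (g : ℝ) (l : ℕ) [NeZero l] :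
    groundEnergy D l B μ g = Pool.Agent.YMI.groundEnergy D l (ob B) μ g := by
  unfold groundEnergy Pool.Agent.YMI.groundEnergy
  congr 1
  ext E
  constructor
  · rintro ⟨Ψ, h1, h2, h3, h4⟩
    exact ⟨Ψ, ⟨h1, h2, h3⟩, h4⟩
  · rintro ⟨Ψ, h1, h2⟩
    exact ⟨Ψ, h1.smooth, h1.inv, h1.norm, h2⟩

lemma low_old {B : LieBasis (mat (G := G)) n} {μ : Measure G} {g : ℝ} {l : ℕ} [NeZero l] {δ : ℝ}
    {Ψ : (Link D l → G) → ℝ} (h : Low B μ g l δ Ψ) : Pool.Agent.YMI.Low (ob B) μ g l δ Ψ := by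
  refine ⟨h.smooth, h.norm, ?_⟩
  rw [← ge_old]
  exact h.low

lemma low_new {B : LieBasis (mat (G := G)) n} {μ : Measure G} {g : ℝ} {l : ℕ} [NeZero l] {δ : ℝ}
    {Ψ : (Link D l → G) → ℝ} (h : Pool.Agent.YMI.Low (ob B) μ g l δ Ψ) : Low B μ g l δ Ψ := by
  refine ⟨h.smooth, h.norm, ?_⟩
  rw [ge_old]
  exact h.low

lemma limit_new {B : LieBasis (mat (G := G)) n} {μ : Measure G} {g Δ : ℝ}
    {ν : Measure (LinkZ D → G)} (hν : IsProbabilityMeasure ν)
    (h : Pool.Agent.W504.YT.Core.IsLimit (ob B) μ g Δ ν) : IsLimit B μ g Δ ν := by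
  refine ⟨hν, ?_⟩
  intro m
  obtain ⟨C, a, l₀, ha, h⟩ := h m
  exact ⟨C, a, l₀, ha, fun Λ F c M h1 h2 h3 h4 h5 l _ hl δ Ψ hδ hΨ =>
    h Λ F c M h1 h2 h3 h4 h5 l hl δ Ψ hδ (low_old hΨ)⟩

lemma limit_old {B : LieBasis (mat (G := G)) n} {μ : Measure G} {g Δ : ℝ}
    {ν : Measure (LinkZ D → G)} (h : IsLimit B μ g Δ ν) :
    Pool.Agent.W504.YT.Core.IsLimit (ob B) μ g Δ ν := by
  obtain ⟨-, h⟩ := h
  intro m
  obtain ⟨C, a, l₀, ha, h⟩ := h m
  exact ⟨C, a, l₀, ha, fun Λ F c M h1 h2 h3 h4 h5 l _ hl δ Ψ hδ hΨ =>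
    h Λ F c M h1 h2 h3 h4 h5 l hl δ Ψ hδ (low_new hΨ)⟩

lemma form_self (hG : IsClosed (G : Set (Matrix.unitaryGroup (Fin N) ℂ))) [BorelSpace G]
    {B : LieBasis (mat (G := G)) n} {g : ℝ} {ν : Measure (LinkZ D → G)} [IsProbabilityMeasure ν]
    {Λ : Finset (LinkZ D)} {F : (LinkZ D → G) → ℝ} (hF : IsLocal mat Λ F) :
    form B g ν F F = g ^ 2 / 2 * ∫ U, Pool.Agent.YMI.gradSq (ob B) Λ F U ∂ν := by
  have : CompactSpace G := by
    have h1 : IsCompact (G : Set (Matrix.unitaryGroup (Fin N) ℂ)) := hG.isCompact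
    exact isCompact_iff_compactSpace.1 h1
  have h00 : SecondCountableTopology (Matrix.unitaryGroup (Fin N) ℂ) :=
    TopologicalSpace.Subtype.secondCountableTopology _
  have : SecondCountableTopology G := TopologicalSpace.Subtype.secondCountableTopology _
  exact Pool.Agent.W504.YT.qV_self (B := ob B) (g := g) (ν := ν)
    (F := (⟨F, Λ, hF⟩ : Pool.Agent.W504.YT.LocV D G)) hF

end bridge

/-- Hamiltonian lattice Yang-Mills theory in infinite volume, in the 't Hooft regime. Let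
`128 (D - 1) < g ^ 4 K ^ 2` and `Δ = (g ^ 2 / 4) (K + √(K ^ 2 - 128 (D - 1) / g ^ 4))`. The gap of
all periodic lattices is at least `Δ`. There is exactly one probability measure `ν` on the
configurations of `ℤ ^ D`, the vacuum, which is the limit of the ground states of the periodic
lattices; on `L²(ν)` there is a self-adjoint Hamiltonian `H`, the limit of the Hamiltonians of the
periodic lattices on the local excitations, with kernel the constants and gap `Δ`; and `ν` has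
exponential clustering and is invariant under gauge transformations and translations. -/
theorem result {N n D : ℕ} (hN : 1 ≤ N) (hD : 1 ≤ D)
    (G : Subgroup (Matrix.unitaryGroup (Fin N) ℂ))
    (hG : IsClosed (G : Set (Matrix.unitaryGroup (Fin N) ℂ))) [MeasurableSpace G] [BorelSpace G]
    (μ : Measure G) [IsProbabilityMeasure μ] [μ.IsHaarMeasure] (B : LieBasis (mat (G := G)) n)
    (K : ℝ) (hK : 0 < K)
    (hGK : (ConnectedSpace G ∧ Curved B K) ∨
      ((∀ u : Matrix.unitaryGroup (Fin N) ℂ, u ∈ G ↔ (u : Mt N).det = 1) ∧ K = N / 2))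
    (g : ℝ) (hg : 0 < g) (hgK : 128 * ((D : ℝ) - 1) < g ^ 4 * K ^ 2) :
    (∀ (l : ℕ) [NeZero l], TorusGap D B μ g (g ^ 2 / 4 * rate D g K 0) l) ∧
      ∃ ν : Measure (LinkZ D → G), IsVacuum B μ g K ν := by
  obtain ⟨h1, ν, h2, h3, h4, h5, h6, h7, h8, h9⟩ := Pool.Agent.W504.YT.Core.core hN hD G hG μ
    (ob B) K hK hGK g hg hgK
  refine ⟨fun l _ => ?_, ν, limit_new h2 h3, fun ν' h => h4 ν' h.prob (limit_old h), ?_, ⟨?_⟩,
    fun a ha haK => ⟨?_⟩, h8, h9⟩
  · obtain ⟨k1, k2⟩ := h1 l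
    rw [← ge_old] at k1 k2
    exact ⟨k1, k2⟩
  · obtain ⟨H, e1, e2, e3, e4, e5⟩ := h5
    have : CompactSpace G := by
      have h1 : IsCompact (G : Set (Matrix.unitaryGroup (Fin N) ℂ)) := hG.isCompact
      exact isCompact_iff_compactSpace.1 h1
    have h00 : SecondCountableTopology (Matrix.unitaryGroup (Fin N) ℂ) :=
      TopologicalSpace.Subtype.secondCountableTopology _
    have : SecondCountableTopology G := TopologicalSpace.Subtype.secondCountableTopology _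
    refine ⟨H, e1, ⟨fun F hl F' hl' hF hF' => ?_⟩, ⟨fun u ε hε => ?_⟩, ⟨e4⟩, ⟨e5⟩⟩
    · obtain ⟨Λ, hl⟩ := hl
      obtain ⟨Λ', hl'⟩ := hl'
      have hl1 := Pool.Agent.YMI.IsLocal.mono (Finset.subset_union_left (s₁ := Λ) (s₂ := Λ')) hl
      have hl2 := Pool.Agent.YMI.IsLocal.mono (Finset.subset_union_right (s₁ := Λ) (s₂ := Λ')) hl'
      obtain ⟨h, e6⟩ := e2 _ F F' hF hF' hl1 hl2
      exact ⟨h, e6.trans (Pool.Agent.W504.YT.qf_eq (B := ob B) hl1 F').symm⟩
    · obtain ⟨Λ, F, hF, e6, e7, e8⟩ := e3 u ε hε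
      refine ⟨F, ⟨Λ, e6⟩, hF, e7, ?_⟩
      rw [form_self hG e6]
      exact e8
  · intro Λ F hF ε hε
    obtain ⟨l₀, h⟩ := h6 Λ F hF ε hε
    refine ⟨l₀, fun l _ hl => ?_⟩
    obtain ⟨δ, hδ, h⟩ := h l hl
    refine ⟨δ, hδ, fun Ψ hΨ => ?_⟩
    rw [form_self hG hF, ge_old]
    exact h Ψ (low_old hΨ)
  · intro Λ Λ' F F' c c' R k1 k2 k3 k4 k5 k6 k7
    exact h7 a ha haK Λ Λ' F F' c c' R k1 k2 k3 k4 k5 k6 k7

end

end Pool.Agent.Results.MP_7f377f_mp.InfiniteVolumeGap
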