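import Mathlib
import Pool.Agent.H906R3.YM.Conc
import Pool.Agent.W793.YM.GLim
import Pool.Agent.W690.SCH.AD
import Pool.Agent.W793.SCH.All
import Pool.Agent.W793.SCH.Lift5

/-!
# Lattice Yang-Mills theory: the Schwinger functions of the local fields `Tr F_{ij} F_{kl}`

Wilson's lattice gauge theory in dimension `d ≥ 3` with gauge group an arbitrary closed subgroup `G`
of `U(N)` at the inverse coupling `β`, on the periodic lattices `(ℤ/l)^d` with `l ≥ β` even and in all
their infinite volume limits. The lattice field strength `F_{jk}(x)` is the orthogonal projection of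
`√β U_{jk}(x)` to the Lie algebra, `U_{jk}(x)` being the plaquette variable, and
`- Tr F_{ij}(x) F_{kl}(x) = ∑_a F^a_{ij}(x) F^a_{kl}(x)` is a gauge invariant local field. For every
`k` there is an exponent `K` such that, as the lattice spacing `1/q` tends to zero and uniformly in
`β ≥ q ^ K`, in the volume and in the infinite volume limit, the `k`-point functions of these fields
at distinct points of `ℝ^d`, centred and multiplied by `q ^ d` for every field, converge to the
explicit `k`-point functions of the Wick ordered fields `∑_a :F^a_{ij} F^a_{kl}:` of `dim G`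
independent free Maxwell fields.
-/

open MeasureTheory Matrix Filter
open scoped Matrix.Norms.Frobenius Topology ContDiff

namespace Pool.Agent.Results.MP_7f377f_mp.SchwingerFunctions

set_option linter.unusedSectionVars false

noncomputable section

/-- Complex `N × N` matrices. -/
abbrev Mt (N : ℕ) := Matrix (Fin N) (Fin N) ℂ

/-- The unitary group `U(N)`. -/
abbrev UU (N : ℕ) := Matrix.unitaryGroup (Fin N) ℂ

/-- The matrix of an element of a subgroup of `U(N)`. -/
def mt {N : ℕ} {G : Subgroup (UU N)} (g : G) : Mt N := ((g : UU N) : Mt N)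

/-- An orthonormal basis `X` of the Lie algebra of `G`, that is of the real space of all matrices `Y`
with `exp (t Y) ∈ G` for all real `t`, with the scalar product `Re tr (Y* Z)`; `ex a t` is the
element `exp (t X_a)` of `G`. -/
structure LieBasis {N : ℕ} (G : Subgroup (UU N)) (n : ℕ) where
  X : Fin n → Mt N
  ex : Fin n → ℝ → G
  ex_eq : ∀ a t, mt (ex a t) = NormedSpace.exp (t • X a)
  orth : ∀ a b, (trace ((X a)ᴴ * X b)).re = if a = b then 1 else 0
  full : ∀ Y : Mt N, (∀ t : ℝ, ∃ g : G, mt g = NormedSpace.exp (t • Y)) →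
    Y ∈ Submodule.span ℝ (Set.range X)

/-- Links of the periodic lattice `(ℤ/l)^d`: base point and direction. -/
abbrev Link (d l : ℕ) := (Fin d → ZMod l) × Fin d

/-- Links of the lattice `ℤ^d`: base point and direction. -/
abbrev LinkZ (d : ℕ) := (Fin d → ℤ) × Fin d

section

variable {N n d l : ℕ} {G : Subgroup (UU N)}

/-- The product of the link variables around the plaquette at `x` in the directions `i`, `j`. -/
def plaq (U : Link d l → G) (x : Fin d → ZMod l) (i j : Fin d) : G :=
  U (x, i) * U (x + Pi.single i 1, j) * (U (x + Pi.single j 1, i))⁻¹ * (U (x, j))⁻¹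

/-- The Wilson action `∑_p Re tr (1 - U_p)`, the sum over the plaquettes. -/
def action [NeZero l] (U : Link d l → G) : ℝ :=
  ∑ x : Fin d → ZMod l, ∑ i : Fin d, ∑ j : Fin d,
    if i < j then (trace (1 - mt (plaq U x i j))).re else 0

/-- The periodic extension of a configuration. -/
def per (U : Link d l → G) : LinkZ d → G := fun e => U (fun i => (e.1 i : ZMod l), e.2)

/-- The expectation of `F` in the lattice Yang-Mills theory on `(ℤ/l)^d`, `μ` being the Haar
measure. -/
def expect (l : ℕ) [NeZero l] [MeasurableSpace G] (μ : Measure G) (β : ℝ)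
    (F : (LinkZ d → G) → ℝ) : ℝ :=
  (∫ U : Link d l → G, F (per U) * Real.exp (-(β * action U)) ∂(Measure.pi fun _ => μ)) /
    ∫ U : Link d l → G, Real.exp (-(β * action U)) ∂(Measure.pi fun _ => μ)

/-- `ν` is an infinite volume limit (weak limit along a subsequence) of the theories on the tori of
even side at inverse coupling `β`. -/
structure IsInfVol [MeasurableSpace G] (μ : Measure G) (β : ℝ)
    (ν : Measure (LinkZ d → G)) : Prop where
  prob : IsProbabilityMeasure ν
  lim : ∃ s : ℕ → ℕ, Tendsto s atTop atTop ∧ ∀ F : (LinkZ d → G) → ℝ, Continuous F →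
    Tendsto (fun j => expect (2 * (s j + 1)) μ β F) atTop (𝓝 (∫ V, F V ∂ν))

/-- The plaquette variable of a configuration on `ℤ^d`. -/
def plaqZ (V : LinkZ d → G) (x : Fin d → ℤ) (i j : Fin d) : G :=
  V (x, i) * V (x + Pi.single i 1, j) * (V (x + Pi.single j 1, i))⁻¹ * (V (x, j))⁻¹

/-- Gauge transformations. -/
def gauge (γ : (Fin d → ℤ) → G) (V : LinkZ d → G) : LinkZ d → G :=
  fun e => γ e.1 * V e * (γ (e.1 + Pi.single e.2 1))⁻¹

/-- The component `F^a_{jk}(x) = √β Re tr (X_a* U_{jk}(x))` of the lattice field strength, the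
orthogonal projection of `√β U_{jk}(x)` to the Lie algebra. -/
def strength (B : LieBasis G n) (β : ℝ) (V : LinkZ d → G) (a : Fin n) (j k : Fin d)
    (x : Fin d → ℤ) : ℝ :=
  Real.sqrt β * (trace ((B.X a)ᴴ * mt (plaqZ V x j k))).re

/-- The gauge invariant local field `∑_a F^a_{ij}(x) F^a_{kl}(x) = - Tr F_{ij}(x) F_{kl}(x)`, where
`s = ((i, j), (k, l))`. -/
def trFF (B : LieBasis G n) (β : ℝ) (s : (Fin d × Fin d) × (Fin d × Fin d)) (x : Fin d → ℤ)
    (V : LinkZ d → G) : ℝ :=
  ∑ a, strength B β V a s.1.1 s.1.2 x * strength B β V a s.2.1 s.2.2 x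

/-- The centred `k`-point function of the observables `O` in the expectation `E`. -/
def centred {k : ℕ} (E : ((LinkZ d → G) → ℝ) → ℝ) (O : Fin k → (LinkZ d → G) → ℝ) : ℝ :=
  E fun V => ∏ r, (O r V - E (O r))

end

section

variable {d : ℕ}

/-- The lattice point next to `x` on the lattice with spacing `1/q`, in lattice units. -/
def lat (q : ℕ) (x : Fin d → ℝ) : Fin d → ℤ := fun i => ⌊(q : ℝ) * x i⌋

/-- The second derivative `∂_j ∂_l` of the Green function of `-Δ` on `ℝ^d`. -/
def hess (j l : Fin d) (x : Fin d → ℝ) : ℝ :=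
  Real.Gamma ((d : ℝ) / 2) / (2 * Real.pi ^ ((d : ℝ) / 2)) * (∑ i, x i ^ 2) ^ (-((d : ℝ) / 2)) *
    (d * x j * x l / (∑ i, x i ^ 2) - if j = l then 1 else 0)

/-- The two-point function `⟨F_{jk}(x) F_{lm}(0)⟩` of the free Maxwell field on `ℝ^d`. -/
def maxwell (x : Fin d → ℝ) (p p' : Fin d × Fin d) : ℝ :=
  -(if p.2 = p'.2 then hess p.1 p'.1 x else 0) + (if p.2 = p'.1 then hess p.1 p'.2 x else 0) +
    (if p.1 = p'.2 then hess p.2 p'.1 x else 0) - (if p.1 = p'.1 then hess p.2 p'.2 x else 0)

/-- The sum over all pairings of the elements of the list of the products of the entries `A`. -/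
def pairings {ι : Type*} (A : ι → ι → ℝ) : List ι → ℝ
  | [] => 1
  | a :: l => ∑ i : Fin l.length, A a (l.get i) * pairings A (l.eraseIdx i)
termination_by l => l.length
decreasing_by
  simp only [List.length_cons]
  have := List.length_eraseIdx_of_lt i.isLt
  omega

/-- The `2 k` factors `(r, false)`, `(r, true)` of `k` quadratic fields. -/
def factors (k : ℕ) : List (Fin k × Bool) :=
  (List.finRange k).flatMap fun r => [(r, false), (r, true)]

/-- The `k`-point function of the Wick ordered fields `∑_a :F^a_{ij}(x_r) F^a_{kl}(x_r):` of `n`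
independent free Maxwell fields, `s r = ((i, j), (k, l))`: the sum over the colours and over the
pairings in which no field is paired with itself. -/
def schwinger (n : ℕ) {k : ℕ} (s : Fin k → (Fin d × Fin d) × (Fin d × Fin d))
    (x : Fin k → Fin d → ℝ) : ℝ :=
  ∑ a : Fin k → Fin n, pairings (fun u v => if u.1 = v.1 then 0 else if a u.1 = a v.1 then
    maxwell (x u.1 - x v.1) (if u.2 then (s u.1).2 else (s u.1).1)
      (if v.2 then (s v.1).2 else (s v.1).1) else 0) (factors k)

end

open Pool.Agent.H906R3 Pool.Agent.W793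

variable {N n d l : ℕ} {G : Subgroup (UU N)}

/-- The same data in the form used by the helper files. -/
def fm (B : LieBasis G n) : YM.Frame G n where
  X := B.X
  ex := B.ex
  ex_eq := B.ex_eq
  orth := B.orth
  full := B.full

/-- The abstract data. -/
def ld (B : LieBasis G n) : YM.LD G N n := (fm B).toLD

lemma action_eq [NeZero l] (B : LieBasis G n) (U : Link d l → G) :
    action U = YM.act (ld B) U := rfl

/-- A Haar probability measure is invariant under right multiplications. -/
lemma right_inv {H : Type*} [Group H] [TopologicalSpace H] [IsTopologicalGroup H]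
    [CompactSpace H] [MeasurableSpace H] [BorelSpace H] (μ : Measure H)
    [IsProbabilityMeasure μ] [μ.IsHaarMeasure] : μ.IsMulRightInvariant := by
  refine ⟨fun g => ?_⟩
  have h1 : IsProbabilityMeasure (Measure.map (fun x => x * g) μ) :=
    Measure.isProbabilityMeasure_map (measurable_mul_const g).aemeasurable
  exact Measure.isHaarMeasure_eq_of_isProbabilityMeasure _ _

/-- A Haar probability measure is invariant under the inversion. -/
lemma inv_inv' {H : Type*} [Group H] [TopologicalSpace H] [IsTopologicalGroup H]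
    [CompactSpace H] [MeasurableSpace H] [BorelSpace H] (μ : Measure H)
    [IsProbabilityMeasure μ] [μ.IsHaarMeasure] : μ.IsInvInvariant := by
  have hr := right_inv μ
  refine ⟨?_⟩
  have h1 : IsProbabilityMeasure μ.inv :=
    Measure.isProbabilityMeasure_map measurable_inv.aemeasurable
  have h2 : μ.inv.IsMulLeftInvariant := inferInstance
  have h3 : μ.inv.IsHaarMeasure :=
    Measure.isHaarMeasure_of_isCompact_nonempty_interior μ.inv Set.univ isCompact_univ
      (by simp) (by simp) (by simp)
  exact Measure.isHaarMeasure_eq_of_isProbabilityMeasure _ _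

section bridge

variable [CompactSpace G] [SecondCountableTopology G] [MeasurableSpace G] [BorelSpace G]
  (μ : Measure G) [IsProbabilityMeasure μ] [μ.IsHaarMeasure] (B : LieBasis G n)

lemma expect_eq [NeZero l] (β : ℝ) (F : (LinkZ d → G) → ℝ) : expect l μ β F =
    YM.EX μ (ld B) β (fun U : YM.Ed d l → G => F (YM.lf U)) := by
  unfold expect YM.EX YM.Zt
  simp only [one_mul]
  rfl

include B in
lemma action_cont [NeZero l] : Continuous (action : (Link d l → G) → ℝ) :=
  YM.act_cont (L := ld B)

include B in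
/-- existence of infinite volume limits -/
lemma exists_infVol (β : ℝ) : ∃ ν : Measure (LinkZ d → G), IsInfVol μ β ν := by
  have hP : ∀ j : ℕ, ∃ P : ProbabilityMeasure (LinkZ d → G),
      ∀ F : (LinkZ d → G) → ℝ, Continuous F →
        ∫ V, F V ∂(P : Measure (LinkZ d → G)) = expect (2 * (j + 1)) μ β F := by
    intro j
    have hper : Continuous (per : (Link d (2 * (j + 1)) → G) → LinkZ d → G) :=
      continuous_pi fun e => continuous_apply _
    have hexp : Continuous fun U : Link d (2 * (j + 1)) → G =>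
        Real.exp (-(β * action U)) :=
      Real.continuous_exp.comp (continuous_const.mul (action_cont B)).neg
    have hint : Integrable (fun U : Link d (2 * (j + 1)) → G =>
        Real.exp (-(β * action U))) (Measure.pi fun _ => μ) :=
      hexp.integrable_of_hasCompactSupport (HasCompactSupport.of_compactSpace _)
    have h1 := isProbabilityMeasure_tilted (f := fun U : Link d (2 * (j + 1)) → G =>
      -(β * action U)) hint
    refine ⟨⟨((Measure.pi fun _ => μ).tilted fun U : Link d (2 * (j + 1)) → G =>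
      -(β * action U)).map per, Measure.isProbabilityMeasure_map hper.aemeasurable⟩,
      fun F hF => ?_⟩
    show ∫ V, F V ∂(((Measure.pi fun _ => μ).tilted fun U : Link d (2 * (j + 1)) → G =>
      -(β * action U)).map per) = _
    rw [integral_map hper.aemeasurable hF.aestronglyMeasurable, integral_tilted]
    unfold expect
    rw [← integral_div]
    refine integral_congr_ae (Filter.Eventually.of_forall fun U => ?_)
    simp only [smul_eq_mul]
    ring
  choose P hP using hP
  obtain ⟨ν, s, hs, hlim⟩ := CompactSpace.tendsto_subseq P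
  refine ⟨ν, ⟨inferInstance, s, hs.tendsto_atTop, fun F hF => ?_⟩⟩
  have h1 := (ProbabilityMeasure.tendsto_iff_forall_integral_tendsto.1 hlim)
    (BoundedContinuousFunction.mkOfCompact ⟨F, hF⟩)
  simp only [Function.comp_apply, BoundedContinuousFunction.mkOfCompact_apply,
    ContinuousMap.coe_mk] at h1
  simpa only [hP _ F hF] using h1

end bridge

/-- the planes -/
def pls {k : ℕ} (s : Fin k → (Fin d × Fin d) × (Fin d × Fin d)) (u : Fin k × Bool) : Fin d × Fin d :=
  if u.2 then (s u.1).2 else (s u.1).1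

lemma pairings_eq {ι : Type*} (A : ι → ι → ℝ) (m : ℕ) : ∀ L : List ι, L.length ≤ m →
    pairings A L = SCH.haf A L := by
  induction m with
  | zero =>
    intro L hL
    have : L = [] := List.length_eq_zero_iff.1 (by omega)
    subst this
    simp only [pairings, SCH.haf]
  | succ m ih =>
    intro L hL
    cases L with
    | nil => simp only [pairings, SCH.haf]
    | cons a L =>
      simp only [pairings, SCH.haf]
      refine Finset.sum_congr rfl fun i _ => ?_
      rw [ih]
      have h1 := List.length_eraseIdx_of_lt i.isLt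
      simp only [List.length_cons] at hL
      omega

lemma schwinger_eq (n : ℕ) {k : ℕ} (s : Fin k → (Fin d × Fin d) × (Fin d × Fin d))
    (x : Fin k → Fin d → ℝ) : schwinger n s x = SCHL.sch n k (pls s) x := by
  unfold schwinger SCHL.sch
  refine Finset.sum_congr rfl fun a _ => ?_
  rw [pairings_eq _ _ _ le_rfl]
  rfl

lemma trFF_eq [NeZero l] (B : LieBasis G n) {β : ℝ} (hβ : 0 ≤ β) {k : ℕ}
    (s : Fin k → (Fin d × Fin d) × (Fin d × Fin d)) (y : Fin k → Fin d → ℤ) (r : Fin k)
    (U : YM.Ed d l → G) : trFF B β (s r) (y r) (YM.lf U) =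
      SCHL.Og (ld B) β (pls s) (fun r => YM.zt l (y r)) r U := by
  unfold trFF SCHL.Og
  rw [Finset.mul_sum]
  refine Finset.sum_congr rfl fun a _ => ?_
  have h1 : ∀ j k', strength B β (YM.lf U) a j k' (y r) = -(Real.sqrt β *
      YM.fi (ld B) a (YM.plqT U (YM.zt l (y r)) j k')) := by
    intro j k'
    rw [← YM.plz_lf]
    unfold strength YM.fi
    rw [YM.trX_apply]
    have h2 : (B.X a)ᴴ = -B.X a := (fm B).skewX a
    rw [h2, neg_mul, trace_neg, Complex.neg_re, mul_neg]
    rfl
  have h3 : β = Real.sqrt β * Real.sqrt β := (Real.mul_self_sqrt hβ).symm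
  rw [h1, h1]
  conv_rhs => rw [h3]
  unfold pls
  simp only [if_true, Bool.false_eq_true, if_false]
  ring

lemma gauge_inv (B : LieBasis G n) (β : ℝ) (s : (Fin d × Fin d) × (Fin d × Fin d))
    (x : Fin d → ℤ) (γ : (Fin d → ℤ) → G) (V : LinkZ d → G) :
    trFF B β s x (gauge γ V) = trFF B β s x V := by
  have h1 : ∀ j k, plaqZ (gauge γ V) x j k = γ x * plaqZ V x j k * (γ x)⁻¹ := by
    intro j k
    unfold plaqZ gauge
    have e1 : x + Pi.single j 1 + Pi.single k 1 = x + Pi.single k 1 + Pi.single j (1:ℤ) := by abel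
    simp only [e1]
    group
  have h2 := Pool.Agent.W690.SCH.t_AD N n G B.X B.ex B.ex_eq B.orth B.full (γ x)
    (mt (plaqZ V x s.1.1 s.1.2)) (mt (plaqZ V x s.2.1 s.2.2))
  unfold trFF strength
  have h3 : ∀ (a : Fin n) (j k : Fin d), (trace ((B.X a)ᴴ * mt (plaqZ (gauge γ V) x j k))).re =
      (trace ((B.X a)ᴴ * (((γ x : G) : UU N) * mt (plaqZ V x j k) *
        (((γ x)⁻¹ : G) : UU N) : Mt N))).re := by
    intro a j k
    rw [h1]
    rfl
  simp only [h3]
  have h4 : ∀ (f g : Fin n → ℝ), ∑ a, Real.sqrt β * f a * (Real.sqrt β * g a) =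
      Real.sqrt β * Real.sqrt β * ∑ a, f a * g a := by
    intro f g
    rw [Finset.mul_sum]
    exact Finset.sum_congr rfl fun a _ => by ring
  rw [h4, h4, h2]

section limit

variable [CompactSpace G] [SecondCountableTopology G] [MeasurableSpace G] [BorelSpace G]
  (μ : Measure G) [IsProbabilityMeasure μ] [μ.IsHaarMeasure] (B : LieBasis G n)

lemma mt_cont : Continuous (mt : G → Mt N) := continuous_subtype_val.comp continuous_subtype_val

lemma trFF_cont (β : ℝ) (s : (Fin d × Fin d) × (Fin d × Fin d)) (x : Fin d → ℤ) :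
    Continuous (trFF B β s x) := by
  have h : ∀ e : LinkZ d, Continuous fun V : LinkZ d → G => V e := fun e => continuous_apply e
  have hp : ∀ j k, Continuous fun V : LinkZ d → G => plaqZ V x j k := by
    intro j k
    unfold plaqZ
    exact (((h _).mul (h _)).mul (h _).inv).mul (h _).inv
  have hs : ∀ a j k, Continuous fun V : LinkZ d → G => strength B β V a j k x := by
    intro a j k
    unfold strength
    refine continuous_const.mul (Complex.continuous_re.comp ?_)
    exact (continuous_const.matrix_mul (mt_cont.comp (hp j k))).matrix_trace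
  unfold trFF
  exact continuous_finsetSum _ fun a _ => (hs a _ _).mul (hs a _ _)

include B in
lemma expect_prod [NeZero l] (β : ℝ) {k : ℕ} {O : Fin k → (LinkZ d → G) → ℝ}
    (hO : ∀ r, Continuous (O r)) (c : Fin k → ℝ) :
    expect l μ β (fun V => ∏ r, (O r V - c r)) = ∑ t ∈ (Finset.univ : Finset (Fin k)).powerset,
      (∏ r ∈ Finset.univ \ t, -c r) * expect l μ β (fun V => ∏ r ∈ t, O r V) := by
  have := right_inv μ
  have := inv_inv' μ
  have hper : Continuous (YM.lf : (YM.Ed d l → G) → LinkZ d → G) :=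
    continuous_pi fun e => continuous_apply _
  simp only [expect_eq μ B]
  have h1 : (fun U : YM.Ed d l → G => ∏ r, (O r (YM.lf U) - c r)) = fun U =>
      ∑ t ∈ (Finset.univ : Finset (Fin k)).powerset,
        (∏ r ∈ Finset.univ \ t, -c r) * ∏ r ∈ t, O r (YM.lf U) := by
    funext U
    simp only [sub_eq_add_neg]
    rw [Finset.prod_add]
    exact Finset.sum_congr rfl fun t _ => mul_comm _ _
  rw [h1, YM.EX_sum μ (Finset.univ : Finset (Fin k)).powerset
    (F := fun (t : Finset (Fin k)) (U : YM.Ed d l → G) =>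
      (∏ r ∈ Finset.univ \ t, -c r) * ∏ r ∈ t, O r (YM.lf U)) fun t _ => continuous_const.mul
    (continuous_finsetProd _ fun r _ => (hO r).comp hper)]
  exact Finset.sum_congr rfl fun t _ => YM.EX_smul μ _ _

lemma integral_prod_eq {ν : Measure (LinkZ d → G)} [IsProbabilityMeasure ν] {k : ℕ}
    {O : Fin k → (LinkZ d → G) → ℝ} (hO : ∀ r, Continuous (O r)) (c : Fin k → ℝ) :
    ∫ V, ∏ r, (O r V - c r) ∂ν = ∑ t ∈ (Finset.univ : Finset (Fin k)).powerset,
      (∏ r ∈ Finset.univ \ t, -c r) * ∫ V, ∏ r ∈ t, O r V ∂ν := by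
  have h1 : (fun V => ∏ r, (O r V - c r)) = fun V =>
      ∑ t ∈ (Finset.univ : Finset (Fin k)).powerset,
        (∏ r ∈ Finset.univ \ t, -c r) * ∏ r ∈ t, O r V := by
    funext V
    simp only [sub_eq_add_neg]
    rw [Finset.prod_add]
    exact Finset.sum_congr rfl fun t _ => mul_comm _ _
  rw [h1, integral_finset_sum]
  · exact Finset.sum_congr rfl fun t _ => integral_const_mul _ _
  · intro t _
    exact ((continuous_const.mul (continuous_finsetProd _ fun r _ => hO r)
      ).integrable_of_hasCompactSupport (HasCompactSupport.of_compactSpace _))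

include B in
lemma centred_lim {β : ℝ} {ν : Measure (LinkZ d → G)} (hν : IsProbabilityMeasure ν) {s : ℕ → ℕ}
    (hlim : ∀ F : (LinkZ d → G) → ℝ, Continuous F →
      Tendsto (fun j => expect (2 * (s j + 1)) μ β F) atTop (𝓝 (∫ V, F V ∂ν))) {k : ℕ}
    {O : Fin k → (LinkZ d → G) → ℝ} (hO : ∀ r, Continuous (O r)) :
    Tendsto (fun j => centred (expect (2 * (s j + 1)) μ β) O) atTop
      (𝓝 (centred (fun F => ∫ V, F V ∂ν) O)) := by
  unfold centred
  beta_reduce
  rw [integral_prod_eq hO]
  simp only [expect_prod μ B β hO]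
  refine tendsto_finsetSum _ fun t _ => ?_
  exact (tendsto_finsetProd _ fun r _ => (hlim _ (hO r)).neg).mul
    (hlim _ (continuous_finsetProd _ fun r _ => hO r))

end limit

theorem result {N n d : ℕ} (hd : 3 ≤ d) (G : Subgroup (UU N)) (hG : IsClosed (G : Set (UU N)))
    [MeasurableSpace G] [BorelSpace G] (μ : Measure G) [IsProbabilityMeasure μ] [μ.IsHaarMeasure]
    (B : LieBasis G n) (k : ℕ) :
    (∀ (β : ℝ) (s : (Fin d × Fin d) × (Fin d × Fin d)) (x : Fin d → ℤ) (γ : (Fin d → ℤ) → G)
      (V : LinkZ d → G), trFF B β s x (gauge γ V) = trFF B β s x V) ∧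
    ∃ K : ℕ, ∀ s : Fin k → (Fin d × Fin d) × (Fin d × Fin d),
      (∀ r, (s r).1.1 ≠ (s r).1.2 ∧ (s r).2.1 ≠ (s r).2.2) →
      ∀ x : Fin k → Fin d → ℝ, Function.Injective x → ∀ ε : ℝ, 0 < ε →
      ∃ q₀ : ℕ, ∀ q : ℕ, q₀ ≤ q → ∀ β : ℝ, (q : ℝ) ^ K ≤ β →
        (∀ (l : ℕ) [NeZero l], Even l → β ≤ l →
          |(q : ℝ) ^ (d * k) * centred (expect l μ β) (fun r => trFF B β (s r) (lat q (x r))) -
            schwinger n s x| ≤ ε) ∧
        (∀ ν : Measure (LinkZ d → G), IsInfVol μ β ν →
          |(q : ℝ) ^ (d * k) * centred (fun F => ∫ V, F V ∂ν)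
            (fun r => trFF B β (s r) (lat q (x r))) - schwinger n s x| ≤ ε) ∧
        ∃ ν : Measure (LinkZ d → G), IsInfVol μ β ν := by
  have : CompactSpace G := by
    have h1 : IsCompact (G : Set (UU N)) := hG.isCompact
    exact isCompact_iff_compactSpace.1 h1
  have h00 : SecondCountableTopology (UU N) := TopologicalSpace.Subtype.secondCountableTopology _
  have : SecondCountableTopology G := TopologicalSpace.Subtype.secondCountableTopology _
  have := right_inv μ
  have := inv_inv' μ
  refine ⟨fun β s x γ V => gauge_inv B β s x γ V, ?_⟩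
  obtain ⟨K, hK⟩ := SCHL.schw μ (L := ld B) hd SCH.a_WC SCH.a_B2 SCH.a_TR SCH.a_HAF SCH.a_KER k
  refine ⟨K, fun s hs x hx ε hε => ?_⟩
  obtain ⟨q₀, hq₀⟩ := hK (pls s) (fun u => by
    unfold pls
    by_cases h : u.2
    · rw [if_pos h]; exact (hs u.1).2
    · rw [if_neg h]; exact (hs u.1).1) x hx ε hε
  refine ⟨max q₀ 1, fun q hq β hβ => ?_⟩
  have hq1 : 1 ≤ q := (le_max_right _ _).trans hq
  have hq1' : (1 : ℝ) ≤ q := by exact_mod_cast hq1
  have hβ0 : 0 ≤ β := le_trans (by positivity) hβ
  have hcont : ∀ r, Continuous (trFF B β (s r) (lat q (x r))) := fun r => trFF_cont B β _ _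
  have hfin : ∀ (l : ℕ) [NeZero l], Even l → β ≤ l →
      |(q : ℝ) ^ (d * k) * centred (expect l μ β) (fun r => trFF B β (s r) (lat q (x r))) -
        schwinger n s x| ≤ ε := by
    intro l _ hl hβl
    obtain ⟨m, rfl⟩ := even_iff_two_dvd.1 hl
    haveI hm0 : NeZero m := ⟨by
      rintro rfl
      exact (NeZero.ne (2 * 0)) rfl⟩
    have h1 := hq₀ q ((le_max_left _ _).trans hq) β hβ m (by push_cast at hβl; exact hβl)
    have h2 : ∀ (r : Fin k) (U : YM.Ed d (2 * m) → G),
        trFF B β (s r) (lat q (x r)) (YM.lf U) = SCHL.Og (ld B) β (pls s)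
          (fun r => YM.zt (2 * m) fun i => ⌊(q : ℝ) * x r i⌋) r U :=
      fun r U => trFF_eq B hβ0 s (fun r => lat q (x r)) r U
    rw [schwinger_eq]
    unfold centred
    simp only [expect_eq μ B, h2]
    exact h1
  refine ⟨hfin, fun ν hν => ?_, exists_infVol μ B β⟩
  obtain ⟨sq, hsq, hlim⟩ := hν.lim
  have hc := centred_lim μ B hν.prob hlim hcont
  refine le_of_tendsto (((hc.const_mul ((q : ℝ) ^ (d * k))).sub_const (schwinger n s x)).abs) ?_
  obtain ⟨M, hM⟩ := exists_nat_ge β
  filter_upwards [hsq.eventually_ge_atTop M] with j hj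
  refine hfin (2 * (sq j + 1)) (even_two_mul _) (hM.trans ?_)
  exact_mod_cast (by omega : M ≤ 2 * (sq j + 1))

end

end Pool.Agent.Results.MP_7f377f_mp.SchwingerFunctions
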